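import Mathlib

set_option autoImplicit false

/-!
# A chain condition for countable partial functions
-/

namespace Pool.Agent.LQ

open Cardinal

/-- terms over countably many arguments -/
private def ar (C : Type) : Option C → Type
  | none => Empty
  | some _ => ℕ

theorem mk_wtype_le (C : Type) (hC : #C ≤ Cardinal.continuum) :
    #(WType (ar C)) ≤ Cardinal.continuum := by
  apply WType.cardinalMk_le_of_le'
  have h : ∀ a : Option C, Cardinal.continuum ^ #(ar C a) ≤ Cardinal.continuum := by
    rintro (_ | c)
    · have : #(ar C none) = 0 := Cardinal.mk_eq_zero_iff.2 (inferInstanceAs (IsEmpty Empty))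
      rw [this, Cardinal.power_zero]
      exact Cardinal.one_le_aleph0.trans Cardinal.aleph0_le_continuum
    · have : #(ar C (some c)) = ℵ₀ := Cardinal.mk_nat
      rw [this, Cardinal.continuum_power_aleph0]
  calc (Cardinal.sum fun a : Option C => Cardinal.continuum ^ Cardinal.lift.{0, 0} #(ar C a))
      ≤ Cardinal.sum fun _ : Option C => Cardinal.continuum :=
        Cardinal.sum_le_sum _ _ fun a => by rw [Cardinal.lift_id]; exact h a
    _ = #(Option C) * Cardinal.continuum := by rw [Cardinal.sum_const']
    _ ≤ Cardinal.continuum * Cardinal.continuum := by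
        apply mul_le_mul_left
        rw [Cardinal.mk_option]
        calc #C + 1 ≤ Cardinal.continuum + Cardinal.continuum :=
              add_le_add hC (Cardinal.one_le_aleph0.trans Cardinal.aleph0_le_continuum)
          _ = Cardinal.continuum := Cardinal.continuum_add_self
    _ = Cardinal.continuum := Cardinal.continuum_mul_self

/-- Among more than continuum many countable partial functions with values in a set of size at most
continuum there are two which agree on their common domain. -/
theorem exists_agree {J E V : Type} (hJ : Cardinal.continuum < #J) (hV : #V ≤ Cardinal.continuum)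
    (F : J → E → Option V) (hF : ∀ j, {e | F j e ≠ none}.Countable) :
    ∃ i j, i ≠ j ∧ ∀ e v w, F i e = some v → F j e = some w → v = w := by
  classical
  have hJne : Nonempty J := Cardinal.mk_ne_zero_iff.1 (ne_of_gt (bot_le.trans_lt hJ))
  obtain ⟨j₀⟩ := hJne
  -- enumerate the domains
  have henum : ∀ j, ∃ s : ℕ → Option E, ∀ e, F j e ≠ none → ∃ n, s n = some e := by
    intro j
    rcases ({e | F j e ≠ none}).eq_empty_or_nonempty with he | hne
    · refine ⟨fun _ => none, fun e h => ?_⟩
      have : e ∈ {e | F j e ≠ none} := h
      rw [he] at this; exact absurd this (Set.notMem_empty e)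
    · obtain ⟨s, hs⟩ := (hF j).exists_eq_range hne
      refine ⟨fun n => some (s n), fun e h => ?_⟩
      have : e ∈ {e | F j e ≠ none} := h
      rw [hs] at this
      obtain ⟨n, rfl⟩ := this
      exact ⟨n, rfl⟩
  choose enum henum using henum
  -- the choice function
  let ch : (ℕ → Option E) → (ℕ → V) → J := fun t g =>
    if h : ∃ j, ∀ n e, t n = some e → F j e = some (g n) then h.choose else j₀
  have hch : ∀ t g, (∃ j, ∀ n e, t n = some e → F j e = some (g n)) →
      ∀ n e, t n = some e → F (ch t g) e = some (g n) := by
    intro t g h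
    have : ch t g = h.choose := dif_pos h
    rw [this]; exact h.choose_spec
  let C : Type := (ℕ → V) × (ℕ → ℕ)
  have hC : #C ≤ Cardinal.continuum := by
    have h1 : #(ℕ → V) ≤ Cardinal.continuum := by
      rw [← Cardinal.power_def, Cardinal.mk_nat]
      calc #V ^ ℵ₀ ≤ Cardinal.continuum ^ ℵ₀ := Cardinal.power_le_power_right hV
        _ = Cardinal.continuum := Cardinal.continuum_power_aleph0
    have h2 : #(ℕ → ℕ) ≤ Cardinal.continuum := by
      rw [← Cardinal.power_def, Cardinal.mk_nat, Cardinal.aleph0_power_aleph0]
    calc #C = #(ℕ → V) * #(ℕ → ℕ) := Cardinal.mk_prod _ _ |>.trans (by simp)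
      _ ≤ Cardinal.continuum * Cardinal.continuum := mul_le_mul' h1 h2
      _ = Cardinal.continuum := Cardinal.continuum_mul_self
  let ev : WType (ar C) → J := WType.elim J (fun x => match x with
    | ⟨none, _⟩ => j₀
    | ⟨some (g, m), c⟩ => ch (fun n => enum (c n) (m n)) g)
  have hev : ∀ (g : ℕ → V) (m : ℕ → ℕ) (c : ℕ → WType (ar C)),
      ev (WType.mk (some (g, m)) c) = ch (fun n => enum (ev (c n)) (m n)) g := fun g m c => rfl
  have hnot : ∃ j, ∀ w, ev w ≠ j := by
    by_contra hcon
    push Not at hcon
    have : #J ≤ #(WType (ar C)) := Cardinal.mk_le_of_surjective (f := ev) hcon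
    exact absurd (this.trans (mk_wtype_le C hC)) (not_le.2 hJ)
  obtain ⟨j, hj⟩ := hnot
  -- the part of the domain of `F j` inside the domains of the members of the closure
  let T : Set E := {e | F j e ≠ none ∧ ∃ w, F (ev w) e ≠ none}
  have hT : T.Countable := (hF j).mono fun e h => h.1
  have hT' : ∃ w, ∀ e ∈ T, F (ev w) e = F j e := by
    rcases T.eq_empty_or_nonempty with he | hne
    · refine ⟨WType.mk none fun x => x.elim, fun e h => ?_⟩
      rw [he] at h; exact absurd h (Set.notMem_empty e)
    · obtain ⟨s, hs⟩ := hT.exists_eq_range hne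
      have hs' : ∀ n, s n ∈ T := fun n => by rw [hs]; exact ⟨n, rfl⟩
      choose w hw using fun n => (hs' n).2
      choose m hm using fun n => henum (ev (w n)) (s n) (hw n)
      choose g hg using fun n => Option.ne_none_iff_exists'.1 (hs' n).1
      refine ⟨WType.mk (some (g, m)) w, fun e he => ?_⟩
      rw [hs] at he
      obtain ⟨n, rfl⟩ := he
      rw [hev, hg n]
      refine hch (fun n => enum (ev (w n)) (m n)) g ⟨j, fun n e h => ?_⟩ n (s n) (hm n)
      have : s n = e := Option.some.inj ((hm n).symm.trans h)
      rw [← this, hg n]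
  obtain ⟨w, hw⟩ := hT'
  refine ⟨ev w, j, hj w, fun e v v' hv hv' => ?_⟩
  have he : e ∈ T := ⟨by rw [hv']; simp, w, by rw [hv]; simp⟩
  have := hw e he
  rw [hv, hv'] at this
  exact Option.some.inj this

end Pool.Agent.LQ
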