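import Pool.Agent.Lib.MP_df1441_gt.Poset
import Pool.Agent.Lib.MP_df1441_gt.DeltaSys

set_option autoImplicit false
set_option linter.unusedSectionVars false

/-!
# The chain condition
-/

namespace Pool.Agent.LQ

open Cardinal Pool.Agent.KM

section Dl

variable {Ω : Type} [LinearOrder Ω] [WellFoundedLT Ω] [Nonempty Ω]

open Classical in
/-- The least place where two different functions differ. -/
noncomputable def Dl (x y : Ω → Bool) : Ω :=
  if h : ∃ i, x i ≠ y i then (wellFounded_lt (α := Ω)).min {i | x i ≠ y i} h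
  else Classical.arbitrary Ω

theorem exists_of_ne {x y : Ω → Bool} (h : x ≠ y) : ∃ i, x i ≠ y i := by
  by_contra hcon
  push Not at hcon
  exact h (funext hcon)

theorem Dl_ne {x y : Ω → Bool} (h : x ≠ y) : x (Dl x y) ≠ y (Dl x y) := by
  have : Dl x y = (wellFounded_lt (α := Ω)).min {i | x i ≠ y i} (exists_of_ne h) :=
    dif_pos (exists_of_ne h)
  rw [this]
  exact (wellFounded_lt (α := Ω)).min_mem {i | x i ≠ y i} (exists_of_ne h)

theorem Dl_eq {x y : Ω → Bool} {i : Ω} (hi : i < Dl x y) : x i = y i := by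
  by_contra hne
  have hex : ∃ i, x i ≠ y i := ⟨i, hne⟩
  have : Dl x y = (wellFounded_lt (α := Ω)).min {i | x i ≠ y i} hex := dif_pos hex
  rw [this] at hi
  exact (wellFounded_lt (α := Ω)).not_lt_min {i | x i ≠ y i} hne hi

theorem Dl_symm (x y : Ω → Bool) : Dl x y = Dl y x := by
  by_cases h : x = y
  · rw [h]
  · rcases lt_trichotomy (Dl x y) (Dl y x) with hlt | heq | hlt
    · exact absurd (Dl_eq hlt).symm (Dl_ne h)
    · exact heq
    · exact absurd (Dl_eq hlt).symm (Dl_ne (Ne.symm h))

theorem le_Dl {x y : Ω → Bool} (h : x ≠ y) {α : Ω} (hα : ∀ i < α, x i = y i) : α ≤ Dl x y := by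
  by_contra hcon
  exact Dl_ne h (hα _ (not_le.1 hcon))

theorem Dl_congr {x y y' : Ω → Bool} (h : x ≠ y') {α : Ω} (hα : ∀ i < α, y i = y' i)
    (hD : Dl x y' < α) : Dl x y = Dl x y' := by
  have hne : x ≠ y := by
    rintro rfl
    exact absurd (le_Dl h hα) (not_le.2 hD)
  apply le_antisymm
  · by_contra hcon
    have h1 := Dl_eq (not_le.1 hcon)
    rw [hα _ hD] at h1
    exact Dl_ne h h1
  · refine le_Dl hne fun i hi => ?_
    rw [hα i (hi.trans hD)]
    exact Dl_eq hi

end Dl

/-- pigeonhole principle -/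
theorem pigeon {J W : Type} (hJ : Cardinal.continuum < #J) (hW : #W ≤ Cardinal.continuum)
    (f : J → W) : ∃ w, Cardinal.continuum < #{j // f j = w} := by
  by_contra hcon
  push Not at hcon
  have h1 : #J = Cardinal.sum fun w => #{j // f j = w} := by
    rw [← Cardinal.mk_sigma]
    exact (Cardinal.mk_congr (Equiv.sigmaFiberEquiv f)).symm
  have h2 : (Cardinal.sum fun w => #{j // f j = w}) ≤ Cardinal.continuum := by
    calc (Cardinal.sum fun w => #{j // f j = w})
        ≤ Cardinal.sum fun _ : W => Cardinal.continuum := Cardinal.sum_le_sum _ _ hcon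
      _ = #W * Cardinal.continuum := by rw [Cardinal.sum_const']
      _ ≤ Cardinal.continuum * Cardinal.continuum := mul_le_mul' hW le_rfl
      _ = Cardinal.continuum := Cardinal.continuum_mul_self
  rw [h1] at hJ
  exact absurd h2 (not_le.2 hJ)

theorem mk_countable_sets {T : Type} (hT : #T ≤ Cardinal.continuum) :
    #{S : Set T // S.Countable} ≤ Cardinal.continuum := by
  have h1 : #(ℕ → Option T) ≤ Cardinal.continuum := by
    rw [← Cardinal.power_def, Cardinal.mk_nat, Cardinal.mk_option]
    calc (#T + 1) ^ ℵ₀ ≤ (Cardinal.continuum + Cardinal.continuum) ^ ℵ₀ :=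
          Cardinal.power_le_power_right
            (add_le_add hT (Cardinal.one_le_aleph0.trans Cardinal.aleph0_le_continuum))
      _ = Cardinal.continuum := by
          rw [Cardinal.continuum_add_self, Cardinal.continuum_power_aleph0]
  let F : (ℕ → Option T) → {S : Set T // S.Countable} := fun s =>
    ⟨{t | ∃ n, s n = some t}, by
      have : ({t | ∃ n, s n = some t} : Set T) = ⋃ n, {t | s n = some t} := by
        ext t; simp
      rw [this]
      refine Set.countable_iUnion fun n => Set.Subsingleton.countable fun a ha b hb => ?_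
      exact Option.some.inj ((show s n = some a from ha).symm.trans hb)⟩
  have hF : Function.Surjective F := by
    rintro ⟨S, hS⟩
    rcases S.eq_empty_or_nonempty with he | hne
    · refine ⟨fun _ => none, Subtype.ext ?_⟩
      show {t | ∃ n : ℕ, (none : Option T) = some t} = S
      rw [he]; ext t; simp
    · obtain ⟨s, hs⟩ := hS.exists_eq_range hne
      refine ⟨fun n => some (s n), Subtype.ext ?_⟩
      show {t | ∃ n : ℕ, some (s n) = some t} = S
      rw [hs]; ext t; simp
  exact (Cardinal.mk_le_of_surjective hF).trans h1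

theorem bdd_of_countable {Ω : Type} [LinearOrder Ω] (hunc : ∀ g : ℕ → Ω, ∃ b, ∀ n, g n < b)
    (hne : Nonempty Ω) {S : Set Ω} (hS : S.Countable) : ∃ b, ∀ s ∈ S, s < b := by
  rcases S.eq_empty_or_nonempty with he | hne'
  · obtain ⟨b⟩ := hne
    exact ⟨b, fun s hs => by rw [he] at hs; exact absurd hs (Set.notMem_empty s)⟩
  · obtain ⟨g, hg⟩ := hS.exists_eq_range hne'
    obtain ⟨b, hb⟩ := hunc g
    refine ⟨b, fun s hs => ?_⟩
    rw [hg] at hs
    obtain ⟨n, rfl⟩ := hs
    exact hb n

variable {Ω K : Type} [LinearOrder Ω] [WellFoundedLT Ω] [Nonempty Ω]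

/-- The chain condition. -/
theorem exists_compat (hseg : ∀ ξ : Ω, (Set.Iio ξ).Countable)
    (hunc : ∀ g : ℕ → Ω, ∃ b, ∀ n, g n < b) (hΩ : #Ω ≤ Cardinal.continuum) {J : Type}
    (hJ : Cardinal.continuum < #J) (p : J → LPoset (Ω → Bool) Ω K Dl) :
    ∃ i j, i ≠ j ∧ ∃ r, r ≤ p i ∧ r ≤ p j := by
  classical
  have hbd : ∀ j, ∃ α : Ω, (∀ B x v, (p j).f B x = some v → v.1 < α) ∧
      ∀ B x v B' x' v', (p j).f B x = some v → (p j).f B' x' = some v' → Dl x x' < α := by
    intro j
    have h1 : {v : Ω | ∃ B x b, (p j).f B x = some (v, b)}.Countable := by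
      refine ((p j).ctb.image fun i => ((p j).f i.1 i.2).elim (Classical.arbitrary Ω) Prod.fst).mono ?_
      rintro v ⟨B, x, b, h⟩
      refine ⟨(B, x), by show (p j).f B x ≠ none; rw [h]; simp, ?_⟩
      show ((p j).f B x).elim (Classical.arbitrary Ω) Prod.fst = v
      rw [h]; rfl
    have h2 : {v : Ω | ∃ B x w B' x' w', (p j).f B x = some w ∧ (p j).f B' x' = some w' ∧
        Dl x x' = v}.Countable := by
      refine (((p j).ctb.prod (p j).ctb).image fun i => Dl i.1.2 i.2.2).mono ?_
      rintro v ⟨B, x, w, B', x', w', h, h', rfl⟩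
      refine ⟨((B, x), (B', x')), ⟨?_, ?_⟩, rfl⟩
      · show (p j).f B x ≠ none; rw [h]; simp
      · show (p j).f B' x' ≠ none; rw [h']; simp
    obtain ⟨b, hb⟩ := bdd_of_countable hunc inferInstance (h1.union h2)
    refine ⟨b, fun B x v h => hb _ (Or.inl ⟨B, x, v.2, h⟩), fun B x v B' x' v' h h' =>
      hb _ (Or.inr ⟨B, x, v, B', x', v', h, h', rfl⟩)⟩
  choose α hα1 hα2 using hbd
  obtain ⟨γ, hγ⟩ := pigeon hJ hΩ α
  -- the patterns
  let T : Type := (Set.Iio γ → Bool) × Ω × Bool
  have hT : #T ≤ Cardinal.continuum := by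
    have h1 : #(Set.Iio γ → Bool) ≤ Cardinal.continuum := by
      rw [← Cardinal.power_def, Cardinal.mk_bool, ← Cardinal.two_power_aleph0]
      exact Cardinal.power_le_power_left two_ne_zero (Cardinal.mk_le_aleph0_iff.2 (hseg γ).to_subtype)
    have h2 : #(Ω × Bool) ≤ Cardinal.continuum := by
      rw [Cardinal.mk_prod, Cardinal.lift_id, Cardinal.lift_id]
      calc #Ω * #Bool ≤ Cardinal.continuum * Cardinal.continuum :=
            mul_le_mul' hΩ ((Cardinal.mk_le_aleph0_iff.2 inferInstance).trans
              Cardinal.aleph0_le_continuum)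
        _ = Cardinal.continuum := Cardinal.continuum_mul_self
    calc #T = #(Set.Iio γ → Bool) * #(Ω × Bool) := (Cardinal.mk_prod _ _).trans (by simp)
      _ ≤ Cardinal.continuum * Cardinal.continuum := mul_le_mul' h1 h2
      _ = Cardinal.continuum := Cardinal.continuum_mul_self
  let pt : (Ω → Bool) → Ω × Bool → T := fun x v => (fun i => x i.1, v)
  let S : {j // α j = γ} → Nm (Ω → Bool) Ω K → Set T := fun j B =>
    {t | ∃ x v, (p j.1).f B x = some v ∧ t = pt x v}
  have hS : ∀ j B, (S j B).Countable := by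
    intro j B
    refine ((p j.1).ctb.image fun i => ((p j.1).f i.1 i.2).elim
      (pt i.2 (Classical.arbitrary Ω, false)) (pt i.2)).mono ?_
    rintro t ⟨x, v, h, rfl⟩
    refine ⟨(B, x), by show (p j.1).f B x ≠ none; rw [h]; simp, ?_⟩
    show ((p j.1).f B x).elim (pt x (Classical.arbitrary Ω, false)) (pt x) = pt x v
    rw [h]; rfl
  let F : {j // α j = γ} → Nm (Ω → Bool) Ω K → Option {S : Set T // S.Countable} := fun j B =>
    if ∃ x, (p j.1).f B x ≠ none then some ⟨S j B, hS j B⟩ else none
  have hF : ∀ j, {B | F j B ≠ none}.Countable := by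
    intro j
    refine ((p j.1).ctb.image Prod.fst).mono ?_
    intro B hB
    by_cases h : ∃ x, (p j.1).f B x ≠ none
    · obtain ⟨x, hx⟩ := h
      exact ⟨(B, x), hx, rfl⟩
    · exact absurd (if_neg h) hB
  obtain ⟨i, j, hij, hag⟩ := exists_agree hγ (mk_countable_sets hT) F hF
  have hSS : ∀ B x v y w, (p i.1).f B x = some v → (p j.1).f B y = some w → S i B = S j B := by
    intro B x v y w h h'
    have e1 : F i B = some ⟨S i B, hS i B⟩ := if_pos ⟨x, by rw [h]; simp⟩
    have e2 : F j B = some ⟨S j B, hS j B⟩ := if_pos ⟨y, by rw [h']; simp⟩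
    exact congrArg Subtype.val (hag B _ _ e1 e2)
  -- transfer from `p i` to `p j` and back
  have htr : ∀ (i j : {j // α j = γ}) (B : Nm (Ω → Bool) Ω K) (x : Ω → Bool) (v : Ω × Bool),
      S i B = S j B → (p i.1).f B x = some v →
        ∃ y, (p j.1).f B y = some v ∧ ∀ ξ < γ, x ξ = y ξ := by
    intro i j B x v hS h
    have h1 : pt x v ∈ S i B := ⟨x, v, h, rfl⟩
    rw [hS] at h1
    obtain ⟨y, w, hy, he⟩ := h1
    have e1 : (fun i : Set.Iio γ => x i.1) = fun i : Set.Iio γ => y i.1 := (Prod.mk.inj he).1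
    have e2 : v = w := (Prod.mk.inj he).2
    exact ⟨y, e2 ▸ hy, fun ξ hξ => congrFun e1 ⟨ξ, hξ⟩⟩
  have heq : ∀ (j : {j // α j = γ}) (B : Nm (Ω → Bool) Ω K) (x y : Ω → Bool) (v w : Ω × Bool),
      (p j.1).f B x = some v → (p j.1).f B y = some w → (∀ ξ < γ, x ξ = y ξ) → x = y := by
    intro j B x y v w h h' he
    by_contra hne
    have := hα2 j.1 B x v B y w h h'
    rw [j.2] at this
    exact absurd (le_Dl hne he) (not_le.2 this)
  have hcross : ∀ (i j : {j // α j = γ}) (B : Nm (Ω → Bool) Ω K) (x : Ω → Bool) (v w : Ω × Bool),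
      S i B = S j B → (p i.1).f B x = some v → (p j.1).f B x = some w → v = w := by
    intro i j B x v w hS h h'
    obtain ⟨y, hy, he⟩ := htr i j B x v hS h
    have := heq j B x y w v h' hy he
    rw [← this, h'] at hy
    exact (Option.some.inj hy).symm
  refine ⟨i.1, j.1, fun h => hij (Subtype.ext h), ?_⟩
  obtain ⟨q, hq, -⟩ := exists_union (fun b : Bool => p (cond b i.1 j.1))
    (by
      rintro (_ | _) (_ | _) B x v w h h'
      · exact Option.some.inj (h.symm.trans h')
      · exact hcross j i B x v w (hSS B x w x v h' h).symm h h'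
      · exact hcross i j B x v w (hSS B x v x w h h') h h'
      · exact Option.some.inj (h.symm.trans h'))
    (by
      rintro (_ | _) (_ | _) B x y v w h h'
      · exact (p j.1).sep B x y v w h h'
      · have hs := (hSS B y _ x _ h' h).symm
        obtain ⟨y', hy', he⟩ := htr i j B y _ hs.symm h'
        have h1 := (p j.1).sep B x y' v w h hy'
        have hne : x ≠ y' := by
          rintro rfl
          have h2 : (p j.1).f B x = some (v, true) := h
          rw [h2] at hy'
          cases hy'
        have hD := hα2 j.1 B x _ B y' _ h hy'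
        rw [j.2] at hD
        rwa [← Dl_congr hne he hD] at h1
      · have hs := hSS B x _ y _ h h'
        obtain ⟨y', hy', he⟩ := htr j i B y _ hs.symm h'
        have h1 := (p i.1).sep B x y' v w h hy'
        have hne : x ≠ y' := by
          rintro rfl
          have h2 : (p i.1).f B x = some (v, true) := h
          rw [h2] at hy'
          cases hy'
        have hD := hα2 i.1 B x _ B y' _ h hy'
        rw [i.2] at hD
        rwa [← Dl_congr hne he hD] at h1
      · exact (p i.1).sep B x y v w h h')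
  exact ⟨q, hq true, hq false⟩

end Pool.Agent.LQ
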