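import Pool.Agent.Lib.MP_8c1a1d_lc.Basic

set_option autoImplicit false

/-!
# The Luzin-Q principle and the poset which forces it
-/

namespace Pool.Agent.LQ

open Cardinal Pool.Agent.KM

/-- The sequence of the first `n` digits of `x`. -/
def digits (x : ℕ → Bool) (n : ℕ) : List Bool := (List.range n).map x

/-- `Ω` is a linear order, `Δ` assigns to two points of `A` an element of `Ω` and `r ν` (`ν ∈ Ω`) are
0-1 sequences.
`seg`, `unc`: initial segments are countable, countable subsets have strict upper bounds;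
`symm`: `Δ` is symmetric;
`big`: for each `β : A → Ω` there are different `x`, `y` with `β x, β y < Δ x y`;
`unif`: for each subset of `A` (with characteristic function `B`) there is `f : A → Ω` such that
`Δ x y < max (f x) (f y)` whenever `x` belongs to the subset and `y` does not;
`inf`: the sequence `r ν` has infinitely many digits `1`;
`luzin`: each dense open set (the set of all sequences with an initial segment in `U`) contains all
but countably many of the `r ν`. -/
structure IsLuzinQ (Ω A : Type) [LinearOrder Ω] (Δ : A → A → Ω) (r : Ω → ℕ → Bool) : Prop where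
  seg : ∀ ξ : Ω, ∃ g : ℕ → Ω, ∀ η < ξ, ∃ n, g n = η
  unc : ∀ g : ℕ → Ω, ∃ b, ∀ n, g n < b
  symm : ∀ x y, Δ x y = Δ y x
  big : ∀ β : A → Ω, ∃ x y, x ≠ y ∧ β x < Δ x y ∧ β y < Δ x y
  unif : ∀ B : A → Bool, ∃ f : A → Ω, ∀ x y, B x = true → B y = false →
    Δ x y < f x ∨ Δ x y < f y
  inf : ∀ ν N, ∃ n, N ≤ n ∧ r ν n = true
  luzin : ∀ U : List Bool → Bool, (∀ s, ∃ t, s <+: t ∧ U t = true) →
    ∃ ξ, ∀ ν, ξ < ν → ∃ n, U (digits (r ν) n) = true

/-- The Luzin-Q principle. -/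
def LuzinQPrinciple : Prop :=
  ∃ (Ω A : Type) (_ : LinearOrder Ω) (Δ : A → A → Ω) (r : Ω → ℕ → Bool), IsLuzinQ Ω A Δ r

/-- `p ⊩ IsLuzinQ Ω A Δ r`, for ground model objects `Ω`, `A`, `Δ`, `r`. -/
def fIsLuzinQ (P : Type) [Preorder P] (Ω A : Type) [LinearOrder Ω] (Δ : A → A → Ω)
    (r : Ω → ℕ → Bool) : P → Prop :=
  fAnd (fAll fun ξ : Ω => fEx fun g : FunName P ℕ Ω => fAll fun η : Ω => fImp (fFact (η < ξ))
    (fEx fun n : ℕ => g.app n η)) <|
  fAnd (fAll fun g : FunName P ℕ Ω => fEx fun b : Ω => fAll fun n : ℕ => fAll fun x : Ω =>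
    fImp (g.app n x) (fFact (x < b))) <|
  fAnd (fFact (∀ x y, Δ x y = Δ y x)) <|
  fAnd (fAll fun β : FunName P A Ω => fEx fun z : (A × A) × (Ω × Ω) =>
    fAnd (fFact (z.1.1 ≠ z.1.2 ∧ z.2.1 < Δ z.1.1 z.1.2 ∧ z.2.2 < Δ z.1.1 z.1.2))
      (fAnd (β.app z.1.1 z.2.1) (β.app z.1.2 z.2.2))) <|
  fAnd (fAll fun B : FunName P A Bool => fEx fun f : FunName P A Ω => fAll fun x : A =>
    fAll fun y : A => fImp (B.app x true) (fImp (B.app y false) (fEx fun v : Ω × Ω =>
      fAnd (fFact (Δ x y < v.1 ∨ Δ x y < v.2)) (fAnd (f.app x v.1) (f.app y v.2))))) <|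
  fAnd (fFact (∀ ν N, ∃ n, N ≤ n ∧ r ν n = true)) <|
  fAll fun U : FunName P (List Bool) Bool => fImp (fAll fun s : List Bool =>
      fEx fun t : List Bool => fAnd (fFact (s <+: t)) (U.app t true))
    (fEx fun ξ : Ω => fAll fun ν : Ω => fImp (fFact (ξ < ν))
      (fEx fun n : ℕ => U.app (digits (r ν) n) true))

/-! ## The poset -/

/-- Names for subsets of `A`.  For each `x : A` a name gives, for each `k : K`, a truth value `l x k`
and a countable piece of information, consisting of the entries number `n` with `ex x k n = true`: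
the condition has the value `(val x k n, lab x k n)` at the name `nm x k n` and the point
`pt x k n`. -/
inductive Nm (A Ω K : Type) : Type
  | base : Nm A Ω K
  | mk (l : A → K → Bool) (ex : A → K → ℕ → Bool) (nm : A → K → ℕ → Nm A Ω K)
      (pt : A → K → ℕ → A) (val : A → K → ℕ → Ω) (lab : A → K → ℕ → Bool) : Nm A Ω K

/-- The partial function `f` decides that the truth value of `x ∈ B` is `b`. -/
def Nm.Dec {A Ω K : Type} (B : Nm A Ω K) (f : Nm A Ω K → A → Option (Ω × Bool)) (x : A)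
    (b : Bool) : Prop :=
  match B with
  | base => False
  | mk l ex nm pt val lab => ∃ k, l x k = b ∧ ∀ n, ex x k n = true →
      f (nm x k n) (pt x k n) = some (val x k n, lab x k n)

/-- The conditions: countable partial functions `f`.  If `f B x = (v, b)` then `f` decides that the
truth value of `x ∈ B` is `b`, and `v` is promised as the value of a function at `x` for which
`Δ x y < max (v x) (v y)` for `x ∈ B` and `y ∉ B`. -/
structure LPoset (A Ω K : Type) [LinearOrder Ω] (Δ : A → A → Ω) where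
  f : Nm A Ω K → A → Option (Ω × Bool)
  ctb : {i : Nm A Ω K × A | f i.1 i.2 ≠ none}.Countable
  dec : ∀ B x v b, f B x = some (v, b) → B.Dec f x b
  sep : ∀ B x y v w, f B x = some (v, true) → f B y = some (w, false) → Δ x y < v ∨ Δ x y < w

/-- Stronger conditions are larger functions. -/
instance {A Ω K : Type} [LinearOrder Ω] {Δ : A → A → Ω} : Preorder (LPoset A Ω K Δ) where
  le q p := ∀ B x v, p.f B x = some v → q.f B x = some v
  le_refl _ _ _ _ h := h
  le_trans _ _ _ h h' B x v hv := h B x v (h' B x v hv)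

/-! ## Topological notions -/

/-- Disjoint closed sets lie in disjoint `G_δ` sets. -/
def Subnormal (X : Type) [TopologicalSpace X] : Prop :=
  ∀ S F : Set X, IsClosed S → IsClosed F → Disjoint S F →
    ∃ A B : Set X, IsGδ A ∧ IsGδ B ∧ S ⊆ A ∧ F ⊆ B ∧ Disjoint A B

/-- Every open cover has a point-finite open refinement which covers the space. -/
def Metacompact (X : Type) [TopologicalSpace X] : Prop :=
  ∀ 𝒰 : Set (Set X), (∀ U ∈ 𝒰, IsOpen U) → ⋃₀ 𝒰 = Set.univ →
    ∃ 𝒱 : Set (Set X), (∀ V ∈ 𝒱, IsOpen V ∧ ∃ U ∈ 𝒰, V ⊆ U) ∧ ⋃₀ 𝒱 = Set.univ ∧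
      ∀ x : X, {V ∈ 𝒱 | x ∈ V}.Finite

/-- For every open cover there is a sequence of open covers refining it, such that each point lies
in only finitely many members of one of them. -/
def Submetacompact (X : Type) [TopologicalSpace X] : Prop :=
  ∀ 𝒰 : Set (Set X), (∀ U ∈ 𝒰, IsOpen U) → ⋃₀ 𝒰 = Set.univ →
    ∃ 𝒱 : ℕ → Set (Set X),
      (∀ n, ∀ V ∈ 𝒱 n, IsOpen V ∧ ∃ U ∈ 𝒰, V ⊆ U) ∧
      (∀ n, ⋃₀ 𝒱 n = Set.univ) ∧
      ∀ x : X, ∃ n, {V ∈ 𝒱 n | x ∈ V}.Finite

/-- Every open cover has a `σ`-discrete closed refinement which covers the space. -/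
def Subparacompact (X : Type) [TopologicalSpace X] : Prop :=
  ∀ 𝒰 : Set (Set X), (∀ U ∈ 𝒰, IsOpen U) → ⋃₀ 𝒰 = Set.univ →
    ∃ 𝒱 : ℕ → Set (Set X),
      (∀ n, ∀ V ∈ 𝒱 n, IsClosed V ∧ ∃ U ∈ 𝒰, V ⊆ U) ∧
      (∀ n, ∀ x : X, ∃ W ∈ nhds x, {V ∈ 𝒱 n | (W ∩ V).Nonempty}.Subsingleton) ∧
      ∀ x : X, ∃ n, ∃ V ∈ 𝒱 n, x ∈ V

end Pool.Agent.LQ
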