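import Pool.Agent.Lib.MP_df1441_gt.CC

set_option autoImplicit false
set_option linter.unusedSectionVars false

/-!
# The poset forces the Luzin-Q principle
-/

namespace Pool.Agent.LQ

open Cardinal Pool.Agent.KM

/-- countably many decisions in a countably closed poset -/
theorem exists_decide {P : Type} [Preorder P]
    (hcl : ∀ p : ℕ → P, (∀ n, p (n + 1) ≤ p n) → ∃ q, ∀ n, q ≤ p n) {C X : Type} [Countable C]
    (φ : C → X → P → Prop) (hp : ∀ c x p q, q ≤ p → φ c x p → φ c x q)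
    (hd : ∀ c p, ∃ q ≤ p, ∃ x, φ c x q) (p : P) : ∃ q ≤ p, ∃ u : C → X, ∀ c, φ c (u c) q := by
  classical
  rcases isEmpty_or_nonempty C with hC | hC
  · exact ⟨p, le_rfl, fun c => (hC.false c).elim, fun c => (hC.false c).elim⟩
  · obtain ⟨e, he⟩ := exists_surjective_nat C
    choose nx hnx x hx using hd
    let s : ℕ → P := fun n => Nat.rec p (fun n q => nx (e n) q) n
    obtain ⟨q, hq⟩ := hcl s fun n => hnx (e n) (s n)
    choose k hk using he
    refine ⟨q, hq 0, fun c => x (e (k c)) (s (k c)), fun c => ?_⟩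
    have h1 : φ (e (k c)) (x (e (k c)) (s (k c))) q :=
      hp _ _ _ _ (hq (k c + 1)) (hx (e (k c)) (s (k c)))
    have h2 : ∀ c', e (k c) = c' → φ c' (x (e (k c)) (s (k c))) q := by
      rintro c' rfl; exact h1
    exact h2 c (hk c)

/-- maximal antichains in dense sets, enumerated by a set of size continuum -/
theorem exists_antichain {P : Type} [Preorder P] [Nonempty P]
    (hcc : ∀ J : Type, Cardinal.continuum < #J → ∀ p : J → P, ∃ i j, i ≠ j ∧ ∃ r, r ≤ p i ∧ r ≤ p j)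
    {K : Type} (hK : Cardinal.continuum ≤ #K) (D : P → Prop) (hD : ∀ p, ∃ q ≤ p, D q) :
    ∃ m : K → P, (∀ k, D (m k)) ∧ ∀ p, ∃ k r, r ≤ p ∧ r ≤ m k := by
  classical
  obtain ⟨M, hM⟩ := zorn_subset
    {M : Set P | (∀ p ∈ M, D p) ∧ ∀ p ∈ M, ∀ q ∈ M, p ≠ q → ¬ ∃ r, r ≤ p ∧ r ≤ q} (by
      intro c hc hchain
      refine ⟨⋃₀ c, ⟨fun p hp => ?_, fun p hp q hq hne => ?_⟩, fun s hs => Set.subset_sUnion_of_mem hs⟩
      · obtain ⟨s, hs, hps⟩ := hp
        exact (hc hs).1 p hps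
      · obtain ⟨s, hs, hps⟩ := hp
        obtain ⟨t, ht, hqt⟩ := hq
        rcases hchain.total hs ht with h | h
        · exact (hc ht).2 p (h hps) q hqt hne
        · exact (hc hs).2 p hps q (h hqt) hne)
  have hM1 := hM.1.1
  have hM2 := hM.1.2
  -- every condition is compatible with a member of `M`
  have hmax : ∀ p, ∃ q ∈ M, ∃ r, r ≤ p ∧ r ≤ q := by
    intro p
    by_contra hcon
    push Not at hcon
    obtain ⟨p', hp', hD'⟩ := hD p
    have hin : insert p' M ∈ {M : Set P | (∀ p ∈ M, D p) ∧ ∀ p ∈ M, ∀ q ∈ M, p ≠ q →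
        ¬ ∃ r, r ≤ p ∧ r ≤ q} := by
      refine ⟨fun q hq => ?_, fun q hq q' hq' hne => ?_⟩
      · rcases hq with rfl | hq
        · exact hD'
        · exact hM1 q hq
      · rintro ⟨r, h1, h2⟩
        rcases hq with rfl | hq
        · rcases hq' with rfl | hq'
          · exact hne rfl
          · exact hcon q' hq' r (h1.trans hp') h2
        · rcases hq' with rfl | hq'
          · exact hcon q hq r (h2.trans hp') h1
          · exact hM2 q hq q' hq' hne ⟨r, h1, h2⟩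
    have h1 := hM.2 hin (Set.subset_insert p' M)
    have h2 : p' ∈ M := h1 (Set.mem_insert p' M)
    exact hcon p' h2 p' hp' le_rfl
  have hcard : #M ≤ #K := by
    refine le_trans ?_ hK
    by_contra hcon
    obtain ⟨i, j, hij, hr⟩ := hcc M (not_le.1 hcon) Subtype.val
    exact hM2 i.1 i.2 j.1 j.2 (fun h => hij (Subtype.ext h)) hr
  have hne : Nonempty M := by
    obtain ⟨p⟩ := (inferInstance : Nonempty P)
    obtain ⟨q, hq, -⟩ := hmax p
    exact ⟨⟨q, hq⟩⟩
  obtain ⟨g⟩ := hcard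
  have hg : Function.Surjective (Function.invFun g) := Function.invFun_surjective g.injective
  refine ⟨fun k => (Function.invFun g k).1, fun k => hM1 _ (Function.invFun g k).2, fun p => ?_⟩
  obtain ⟨q, hq, r, h1, h2⟩ := hmax p
  obtain ⟨k, hk⟩ := hg ⟨q, hq⟩
  refine ⟨k, r, h1, ?_⟩
  show r ≤ (Function.invFun g k).1
  rw [hk]; exact h2

variable {Ω K : Type} [LinearOrder Ω] [WellFoundedLT Ω] [Nonempty Ω]

/-- Each name for a subset of `Ω → Bool` is represented by a coordinate of the poset, and the generic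
filter defines a function with the property required in `unif`. -/
theorem forces_unif (hseg : ∀ ξ : Ω, (Set.Iio ξ).Countable)
    (hunc : ∀ g : ℕ → Ω, ∃ b, ∀ n, g n < b) (hΩ : #Ω ≤ Cardinal.continuum)
    (hK : Cardinal.continuum ≤ #K) (p : LPoset (Ω → Bool) Ω K Dl)
    (B : FunName (LPoset (Ω → Bool) Ω K Dl) (Ω → Bool) Bool) :
    ∃ f : FunName (LPoset (Ω → Bool) Ω K Dl) (Ω → Bool) Ω, ∀ x y : Ω → Bool,
      fImp (B.app x true) (fImp (B.app y false) (fEx fun v : Ω × Ω =>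
      fAnd (fFact (Dl x y < v.1 ∨ Dl x y < v.2)) (fAnd (f.app x v.1) (f.app y v.2)))) p := by
  classical
  have hcc : ∀ J : Type, Cardinal.continuum < #J → ∀ p : J → LPoset (Ω → Bool) Ω K Dl,
      ∃ i j, i ≠ j ∧ ∃ r, r ≤ p i ∧ r ≤ p j := fun J hJ p => exists_compat hseg hunc hΩ hJ p
  -- antichains which decide the name
  have h1 : ∀ x : Ω → Bool, ∃ m : K → LPoset (Ω → Bool) Ω K Dl, (∀ k, ∃ b, B.app x b (m k)) ∧
      ∀ p, ∃ k r, r ≤ p ∧ r ≤ m k := fun x =>
    exists_antichain hcc hK (fun q => ∃ b, B.app x b q) (fun q => B.tot x q)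
  choose m hm hmax using h1
  choose l hl using hm
  have h2 : ∀ (x : Ω → Bool) (k : K), ∃ (ex : ℕ → Bool) (nm : ℕ → Nm (Ω → Bool) Ω K)
      (pt : ℕ → Ω → Bool) (val : ℕ → Ω) (lab : ℕ → Bool),
      ∀ g : Nm (Ω → Bool) Ω K → (Ω → Bool) → Option (Ω × Bool),
        (∀ n, ex n = true → g (nm n) (pt n) = some (val n, lab n)) ↔
          ∀ B x' v, (m x k).f B x' = some v → g B x' = some v := fun x k =>
    exists_enum (m x k) (fun _ => false) (Classical.arbitrary Ω)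
  choose ex nm pt val lab hen using h2
  let N : Nm (Ω → Bool) Ω K := Nm.mk l ex nm pt val lab
  have hDec : ∀ (r : LPoset (Ω → Bool) Ω K Dl) (x : Ω → Bool) (b : Bool),
      N.Dec r.f x b ↔ ∃ k, l x k = b ∧ r ≤ m x k := by
    intro r x b
    constructor
    · rintro ⟨k, h, h'⟩
      exact ⟨k, h, (hen x k r.f).1 h'⟩
    · rintro ⟨k, h, h'⟩
      exact ⟨k, h, (hen x k r.f).2 h'⟩
  have hlab : ∀ (r : LPoset (Ω → Bool) Ω K Dl) (x : Ω → Bool) (v : Ω) (b b' : Bool),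
      r.f N x = some (v, b) → B.app x b' r → b = b' := by
    intro r x v b b' h h'
    obtain ⟨k, hk, hr⟩ := (hDec r x b).1 (r.dec N x v b h)
    exact B.sv x b b' r ((B.reg x b).mono hr (hk ▸ hl x k)) h'
  let F : FunName (LPoset (Ω → Bool) Ω K Dl) (Ω → Bool) Ω :=
    { app := fun x v p => ∀ q ≤ p, ∃ r ≤ q, ∃ b, r.f N x = some (v, b)
      reg := fun x v => ⟨fun p q hq h r hr => h r (hr.trans hq), fun p h q hq => by
        obtain ⟨r, hr, h'⟩ := h q hq
        obtain ⟨s, hs, b, hb⟩ := h' r le_rfl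
        exact ⟨s, hs.trans hr, b, hb⟩⟩
      sv := fun x v w p hv hw => by
        obtain ⟨r, hr, b, hb⟩ := hv p le_rfl
        obtain ⟨s, hs, b', hb'⟩ := hw r hr
        have := (hs _ _ _ hb).symm.trans hb'
        exact (Prod.mk.inj (Option.some.inj this)).1
      tot := fun x p => by
        obtain ⟨k, r, hr, hr'⟩ := hmax x p
        obtain ⟨q, hq, v, b, hb⟩ := exists_add hunc Dl_symm r N x (l x k)
          ((hDec r x _).2 ⟨k, rfl, hr'⟩)
        exact ⟨q, hq.trans hr, v, fun q' hq' => ⟨q', le_rfl, b, hq' _ _ _ hb⟩⟩ }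
  refine ⟨F, fun x y q hq hx r hr hy s hs => ?_⟩
  obtain ⟨s1, hs1, v, hv⟩ := F.tot x s
  obtain ⟨s2, hs2, b, hb⟩ := hv s1 le_rfl
  obtain ⟨s3, hs3, w, hw⟩ := F.tot y s2
  obtain ⟨s4, hs4, b', hb'⟩ := hw s3 le_rfl
  have hle : s4 ≤ s := ((hs4.trans hs3).trans hs2).trans hs1
  have hb1 : s4.f N x = some (v, b) := (hs4.trans hs3) _ _ _ hb
  have e1 : b = true := hlab s4 x v b true hb1
    ((B.reg x true).mono ((hle.trans hs).trans hr) hx)
  have e2 : b' = false := hlab s4 y w b' false hb' ((B.reg y false).mono (hle.trans hs) hy)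
  subst e1; subst e2
  refine ⟨s4, hle, (v, w), s4.sep N x y v w hb1 hb', ?_, ?_⟩
  · exact (F.reg x v).mono ((hs4.trans hs3).trans hs2) hv
  · exact (F.reg y w).mono hs4 hw

/-- The clause `big`. -/
theorem forces_big (hseg : ∀ ξ : Ω, (Set.Iio ξ).Countable)
    (hunc : ∀ g : ℕ → Ω, ∃ b, ∀ n, g n < b) (hΩ : #Ω ≤ Cardinal.continuum)
    (hA : Cardinal.continuum < #(Ω → Bool)) (p : LPoset (Ω → Bool) Ω K Dl)
    (β : FunName (LPoset (Ω → Bool) Ω K Dl) (Ω → Bool) Ω) :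
    ∃ q ≤ p, ∃ z : ((Ω → Bool) × (Ω → Bool)) × (Ω × Ω),
      fAnd (fFact (z.1.1 ≠ z.1.2 ∧ z.2.1 < Dl z.1.1 z.1.2 ∧ z.2.2 < Dl z.1.1 z.1.2))
        (fAnd (β.app z.1.1 z.2.1) (β.app z.1.2 z.2.2)) q := by
  classical
  choose q hq v hv using fun x => β.tot x p
  obtain ⟨γ, hγ⟩ := pigeon hA hΩ v
  have hIic : #(Set.Iic γ → Bool) ≤ Cardinal.continuum := by
    rw [← Cardinal.power_def, Cardinal.mk_bool, ← Cardinal.two_power_aleph0]
    refine Cardinal.power_le_power_left two_ne_zero (Cardinal.mk_le_aleph0_iff.2 ?_)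
    have : (Set.Iic γ) = Set.Iio γ ∪ {γ} := by
      ext i; simp [le_iff_lt_or_eq]
    rw [this]
    exact ((hseg γ).union (Set.countable_singleton γ)).to_subtype
  obtain ⟨w, hw⟩ := pigeon hγ hIic fun (x : {x // v x = γ}) (i : Set.Iic γ) => x.1 i.1
  obtain ⟨i, j, hij, r, h1, h2⟩ := exists_compat hseg hunc hΩ hw fun x => q x.1.1
  refine ⟨r, h1.trans (hq _), ((i.1.1, j.1.1), (γ, γ)), ⟨?_, ?_, ?_⟩, ?_, ?_⟩
  · exact fun h => hij (Subtype.ext (Subtype.ext h))
  · have hne : i.1.1 ≠ j.1.1 := fun h => hij (Subtype.ext (Subtype.ext h))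
    have := Dl_ne hne
    by_contra hcon
    refine this ?_
    have e : (fun k : Set.Iic γ => i.1.1 k.1) = fun k : Set.Iic γ => j.1.1 k.1 := i.2.trans j.2.symm
    exact congrFun e ⟨_, not_lt.1 hcon⟩
  · have hne : i.1.1 ≠ j.1.1 := fun h => hij (Subtype.ext (Subtype.ext h))
    have := Dl_ne hne
    by_contra hcon
    refine this ?_
    have e : (fun k : Set.Iic γ => i.1.1 k.1) = fun k : Set.Iic γ => j.1.1 k.1 := i.2.trans j.2.symm
    exact congrFun e ⟨_, not_lt.1 hcon⟩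
  · have h3 := hv i.1.1
    rw [i.1.2] at h3
    exact (β.reg _ _).mono h1 h3
  · have h3 := hv j.1.1
    rw [j.1.2] at h3
    exact (β.reg _ _).mono h2 h3

/-- The poset forces the Luzin-Q principle. -/
theorem forces_all (hseg : ∀ ξ : Ω, (Set.Iio ξ).Countable)
    (hunc : ∀ g : ℕ → Ω, ∃ b, ∀ n, g n < b) (hΩ : #Ω ≤ Cardinal.continuum)
    (hK : Cardinal.continuum ≤ #K) (hA : Cardinal.continuum < #(Ω → Bool))
    (r : Ω → ℕ → Bool) (hinf : ∀ ν N, ∃ n, N ≤ n ∧ r ν n = true)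
    (hluz : ∀ U : List Bool → Bool, (∀ s, ∃ t, s <+: t ∧ U t = true) →
      ∃ ξ, ∀ ν, ξ < ν → ∃ n, U (digits (r ν) n) = true)
    (p : LPoset (Ω → Bool) Ω K Dl) :
    fIsLuzinQ (LPoset (Ω → Bool) Ω K Dl) Ω (Ω → Bool) Dl r p := by
  classical
  have hcl : ∀ p : ℕ → LPoset (Ω → Bool) Ω K Dl, (∀ n, p (n + 1) ≤ p n) → ∃ q, ∀ n, q ≤ p n :=
    fun p h => exists_lower p h
  refine ⟨?_, ?_, Dl_symm, ?_, ?_, hinf, ?_⟩
  · intro ξ q hq
    have hne : (Set.Iic ξ).Nonempty := ⟨ξ, le_rfl⟩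
    have hct : (Set.Iic ξ).Countable := by
      have : (Set.Iic ξ) = Set.Iio ξ ∪ {ξ} := by ext i; simp [le_iff_lt_or_eq]
      rw [this]
      exact (hseg ξ).union (Set.countable_singleton ξ)
    obtain ⟨g, hg⟩ := hct.exists_eq_range hne
    refine ⟨q, le_rfl, checkFun _ g, fun η q' hq' hη => ?_⟩
    have hη' : η < ξ := hη
    have : η ∈ Set.Iic ξ := hη'.le
    rw [hg] at this
    obtain ⟨n, hn⟩ := this
    exact fun s hs => ⟨s, le_rfl, n, hn⟩
  · intro g q hq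
    obtain ⟨q', hq', u, hu⟩ := exists_decide hcl (fun n x q => g.app n x q)
      (fun c x p q hq h => (g.reg c x).mono hq h) (fun c p => g.tot c p) q
    obtain ⟨b, hb⟩ := hunc u
    refine ⟨q', hq', b, fun n x s hs h => ?_⟩
    have := g.sv n x (u n) s h ((g.reg n (u n)).mono hs (hu n))
    show x < b
    rw [this]; exact hb n
  · intro β q hq
    exact forces_big hseg hunc hΩ hA q β
  · intro B q hq
    obtain ⟨f, hf⟩ := forces_unif hseg hunc hΩ hK q B
    exact ⟨q, le_rfl, f, hf⟩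
  · intro U q hq hU q' hq'
    obtain ⟨s, hs, u, hu⟩ := exists_decide hcl (fun t b q => U.app t b q)
      (fun c x p q hq h => (U.reg c x).mono hq h) (fun c p => U.tot c p) q'
    obtain ⟨ξ, hξ⟩ := hluz u fun t => by
      obtain ⟨s', hs', t', ht, ht'⟩ := hU t s (hs.trans hq')
      exact ⟨t', ht, U.sv t' _ _ s' ((U.reg _ _).mono hs' (hu t')) ht'⟩
    refine ⟨s, hs, ξ, fun ν s' hs' hν s'' hs'' => ?_⟩
    obtain ⟨n, hn⟩ := hξ ν hν
    exact ⟨s'', le_rfl, n, hn ▸ (U.reg _ _).mono (hs''.trans hs') (hu _)⟩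

end Pool.Agent.LQ
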