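import Pool.Agent.Lib.MP_df1441_gt.Force

set_option autoImplicit false
set_option linter.unusedSectionVars false

/-!
# The ground model: CH gives a Luzin sequence
-/

namespace Pool.Agent.LQ

open Cardinal Pool.Agent.KM

/-- Countably many dense open sets have a common point with infinitely many digits `1`. -/
theorem exists_point {C : Type} [Countable C] (U : C → List Bool → Bool)
    (hU : ∀ c s, ∃ t, s <+: t ∧ U c t = true) :
    ∃ x : ℕ → Bool, (∀ c, ∃ n, U c (digits x n) = true) ∧ ∀ N, ∃ n, N ≤ n ∧ x n = true := by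
  classical
  -- a sequence of dense open sets, starting with the whole space
  have hseq : ∃ V : ℕ → List Bool → Bool, (∀ k s, ∃ t, s <+: t ∧ V k t = true) ∧
      ∀ c, ∃ k, V k = U c := by
    rcases isEmpty_or_nonempty C with hC | hC
    · exact ⟨fun _ _ => true, fun k s => ⟨s, List.prefix_rfl, rfl⟩, fun c => (hC.false c).elim⟩
    · obtain ⟨e, he⟩ := exists_surjective_nat C
      exact ⟨fun k => U (e k), fun k s => hU (e k) s, fun c => (he c).imp fun k hk => by
        show U (e k) = U c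
        rw [hk]⟩
  obtain ⟨V, hV, hVU⟩ := hseq
  choose t ht1 ht2 using hV
  let s : ℕ → List Bool := fun n => Nat.rec [] (fun k l => t k l ++ [true]) n
  have hs : ∀ k, s (k + 1) = t k (s k) ++ [true] := fun k => rfl
  have hs1 : ∀ k, t k (s k) <+: s (k + 1) := fun k => List.prefix_append _ _
  have hs2 : ∀ k, s k <+: s (k + 1) := fun k => (ht1 k (s k)).trans (hs1 k)
  have hs3 : ∀ k l, k ≤ l → s k <+: s l := by
    intro k l h
    induction h with
    | refl => exact List.prefix_rfl
    | step _ ih => exact ih.trans (hs2 _)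
  have hlen : ∀ k, k ≤ (s k).length := by
    intro k
    induction k with
    | zero => exact Nat.zero_le _
    | succ k ih =>
      rw [hs, List.length_append, List.length_singleton]
      have := (ht1 k (s k)).length_le
      omega
  let x : ℕ → Bool := fun n => (s (n + 1)).getD n false
  have hx : ∀ k n (h : n < (s k).length), x n = (s k)[n] := by
    intro k n h
    have h1 : n < (s (n + 1)).length := lt_of_lt_of_le (Nat.lt_succ_self n) (hlen (n + 1))
    have h2 : x n = (s (n + 1))[n] := List.getD_eq_getElem _ _ h1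
    rw [h2]
    rcases le_total k (n + 1) with hk | hk
    · exact ((hs3 _ _ hk).getElem h).symm
    · exact (hs3 _ _ hk).getElem h1
  have hdig : ∀ k u, u <+: s k → digits x u.length = u := by
    intro k u hu
    apply List.ext_getElem
    · simp [digits]
    · intro i h1 h2
      have h3 : i < (s k).length := lt_of_lt_of_le h2 hu.length_le
      have h4 : (digits x u.length)[i] = x i := by simp [digits]
      rw [h4, hx k i h3]
      exact (hu.getElem h2).symm
  refine ⟨x, fun c => ?_, fun N => ?_⟩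
  · obtain ⟨k, hk⟩ := hVU c
    refine ⟨(t k (s k)).length, ?_⟩
    rw [hdig (k + 1) _ (hs1 k), ← hk]
    exact ht2 k (s k)
  · refine ⟨(t N (s N)).length, (hlen N).trans (ht1 N (s N)).length_le, ?_⟩
    have h1 : (t N (s N)).length < (s (N + 1)).length := by
      rw [hs, List.length_append, List.length_singleton]; omega
    rw [hx (N + 1) _ h1]
    simp [hs]

/-- Under CH there are ground model data as required. -/
theorem exists_ground (hCH : Cardinal.continuum.{0} = ℵ₁) :
    ∃ (Ω : Type) (_ : LinearOrder Ω) (_ : WellFoundedLT Ω) (_ : Nonempty Ω) (r : Ω → ℕ → Bool),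
      (∀ ξ : Ω, (Set.Iio ξ).Countable) ∧ (∀ g : ℕ → Ω, ∃ b, ∀ n, g n < b) ∧
      #Ω ≤ Cardinal.continuum ∧ Cardinal.continuum < #(Ω → Bool) ∧
      (∀ ν N, ∃ n, N ≤ n ∧ r ν n = true) ∧
      ∀ U : List Bool → Bool, (∀ s, ∃ t, s <+: t ∧ U t = true) →
        ∃ ξ, ∀ ν, ξ < ν → ∃ n, U (digits (r ν) n) = true := by
  classical
  let Ω : Type := (Cardinal.ord ℵ₁).ToType
  have hΩ : #Ω = ℵ₁ := Cardinal.mk_ord_toType _
  have hseg : ∀ ξ : Ω, (Set.Iio ξ).Countable := by
    intro ξ
    have h1 : #(Set.Iio ξ) < ℵ₁ := Cardinal.mk_Iio_toType_ord_lt ξ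
    have h2 : ∀ c : Cardinal.{0}, c < ℵ₁ → c ≤ ℵ₀ := fun c hc => by
      rw [← Cardinal.succ_aleph0, Order.lt_succ_iff] at hc
      exact hc
    exact Set.countable_coe_iff.1 (Cardinal.mk_le_aleph0_iff.1 (h2 _ h1))
  have hunc : ∀ g : ℕ → Ω, ∃ b, ∀ n, g n < b := by
    intro g
    by_contra hcon
    push Not at hcon
    have h1 : (Set.univ : Set Ω) = ⋃ n, Set.Iic (g n) := by
      ext b
      simp only [Set.mem_univ, Set.mem_iUnion, Set.mem_Iic, true_iff]
      exact hcon b
    have h2 : (Set.univ : Set Ω).Countable := by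
      rw [h1]
      refine Set.countable_iUnion fun n => ?_
      have : (Set.Iic (g n)) = Set.Iio (g n) ∪ {g n} := by ext i; simp [le_iff_lt_or_eq]
      rw [this]
      exact (hseg _).union (Set.countable_singleton _)
    have h3 : #Ω ≤ ℵ₀ := Cardinal.mk_le_aleph0_iff.2 (Set.countable_univ_iff.1 h2)
    rw [hΩ] at h3
    exact absurd h3 (not_le.2 Cardinal.aleph0_lt_aleph_one)
  have hne : Nonempty Ω := Cardinal.mk_ne_zero_iff.1 (by
    rw [hΩ]; exact (Cardinal.aleph_pos 1).ne')
  have hsurj : ∃ e : Ω → (List Bool → Bool), Function.Surjective e := by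
    have h1 : #(List Bool → Bool) = #Ω := by
      rw [hΩ, ← hCH, ← Cardinal.power_def, Cardinal.mk_bool, Cardinal.mk_list_eq_aleph0,
        Cardinal.two_power_aleph0]
    obtain ⟨e⟩ := Cardinal.eq.1 h1
    exact ⟨e.symm, e.symm.surjective⟩
  obtain ⟨e, he⟩ := hsurj
  have hpt : ∀ ν : Ω, ∃ x : ℕ → Bool, (∀ η < ν, (∀ s, ∃ t, s <+: t ∧ e η t = true) →
      ∃ n, e η (digits x n) = true) ∧ ∀ N, ∃ n, N ≤ n ∧ x n = true := by
    intro ν
    let C : Type := {η : Ω // η < ν ∧ ∀ s, ∃ t, s <+: t ∧ e η t = true}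
    have hC : Countable C := by
      have : {η : Ω | η < ν ∧ ∀ s, ∃ t, s <+: t ∧ e η t = true}.Countable :=
        (hseg ν).mono fun η h => h.1
      exact this.to_subtype
    obtain ⟨x, h1, h2⟩ := exists_point (fun c : C => e c.1) fun c s => c.2.2 s
    exact ⟨x, fun η hη hd => h1 ⟨η, hη, hd⟩, h2⟩
  choose r hr1 hr2 using hpt
  refine ⟨Ω, inferInstance, inferInstance, hne, r, hseg, hunc, ?_, ?_, hr2, ?_⟩
  · rw [hΩ, hCH]
  · rw [← Cardinal.power_def, Cardinal.mk_bool, hCH, hΩ]
    exact Cardinal.cantor _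
  · intro U hU
    obtain ⟨ξ, rfl⟩ := he U
    exact ⟨ξ, fun ν hν => hr1 ν ξ hν hU⟩

/-- Part 1: under CH there is a poset which forces the Luzin-Q principle. -/
theorem part_one (hCH : Cardinal.continuum.{0} = ℵ₁) :
    ∃ (Ω A K : Type) (_ : LinearOrder Ω) (Δ : A → A → Ω) (r : Ω → ℕ → Bool),
      Nonempty (LPoset A Ω K Δ) ∧ ∀ p : LPoset A Ω K Δ, fIsLuzinQ (LPoset A Ω K Δ) Ω A Δ r p := by
  obtain ⟨Ω, i1, i2, i3, r, h1, h2, h3, h4, h5, h6⟩ := exists_ground hCH
  refine ⟨Ω, Ω → Bool, ℕ → Bool, i1, Dl, r, inferInstance, fun p => ?_⟩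
  refine forces_all h1 h2 h3 ?_ h4 r h5 h6 p
  rw [← Cardinal.power_def, Cardinal.mk_bool, Cardinal.mk_nat, Cardinal.two_power_aleph0]

end Pool.Agent.LQ
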