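import Pool.Agent.Lib.MP_df1441_gt.Space

set_option autoImplicit false
set_option linter.unusedSectionVars false
set_option linter.unusedVariables false

/-!
# The space is not subparacompact
-/

namespace Pool.Agent.LQ

open Set

variable {Ω A : Type} [LinearOrder Ω] {Δ : A → A → Ω} {r : Ω → ℕ → Bool}

theorem digits_eq {x y : ℕ → Bool} {n : ℕ} (h : digits x n = digits y n) : ∀ i < n, x i = y i := by
  intro i hi
  have h1 : (digits x n)[i]? = some (x i) := by simp [digits, hi]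
  have h2 : (digits y n)[i]? = some (y i) := by simp [digits, hi]
  rw [h] at h1
  exact Option.some.inj (h1.symm.trans h2)

theorem digits_congr {x y : ℕ → Bool} {n : ℕ} (h : ∀ i < n, x i = y i) :
    digits x n = digits y n :=
  List.map_congr_left fun i hi => h i (List.mem_range.1 hi)

theorem digits_length (x : ℕ → Bool) (n : ℕ) : (digits x n).length = n := by simp [digits]

theorem digits_prefix (x : ℕ → Bool) {m n : ℕ} (h : m ≤ n) : digits x m <+: digits x n := by
  obtain ⟨k, rfl⟩ := Nat.exists_eq_add_of_le h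
  unfold digits
  rw [List.range_add, List.map_append]
  exact List.prefix_append _ _

theorem not_subparacompact (h : IsLuzinQ Ω A Δ r) : ¬ Subparacompact (Sp Δ r) := by
  classical
  intro hsub
  let U : A → Set (Sp Δ r) := fun x => {z | ov z x} ∪ {z | ∃ a b, ∃ hab : a ≠ b, z = .iso a b hab}
  have hUo : ∀ x, IsOpen (U x) := by
    intro x
    rw [isOpen_iff]
    intro x' q hx
    rcases hx with hx | ⟨a, b, hab, hx⟩
    · have : x' = x := hx
      subst this
      exact ⟨0, fun z hz => Or.inl hz.1⟩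
    · cases hx
  obtain ⟨𝒱, h1, h2, h3⟩ := hsub (Set.range U) (by rintro _ ⟨x, rfl⟩; exact hUo x) (by
    rw [Set.eq_univ_iff_forall]
    rintro (⟨x, q⟩ | ⟨x, y, hxy⟩)
    · exact ⟨U x, ⟨x, rfl⟩, Or.inl rfl⟩
    · exact ⟨U x, ⟨x, rfl⟩, Or.inl (Or.inl rfl)⟩)
  -- basic neighbourhoods which avoid the members missing the fiber over `x`
  have hgood : ∀ (x : A) (n : ℕ) (q : Q), ∃ m, ∀ C ∈ 𝒱 n, (∀ q', (.pt x q' : Sp Δ r) ∉ C) →
      ∀ z ∈ (N x q.1 m : Set (Sp Δ r)), z ∉ C := by
    intro x n q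
    obtain ⟨W, hW, hWs⟩ := h2 n (.pt x q)
    by_cases hex : ∃ C ∈ 𝒱 n, (W ∩ C).Nonempty ∧ ∀ q', (.pt x q' : Sp Δ r) ∉ C
    · obtain ⟨C, hC, hWC, hCx⟩ := hex
      have hCc : IsClosed C := (h1 n C hC).1
      have : W ∩ Cᶜ ∈ nhds (.pt x q : Sp Δ r) :=
        Filter.inter_mem hW (hCc.isOpen_compl.mem_nhds (hCx q))
      obtain ⟨m, hm⟩ := mem_nhds_pt.1 this
      refine ⟨m, fun C' hC' hC'x z hz hzC' => ?_⟩
      have hz' := hm hz
      have : C' = C := hWs ⟨hC', z, hz'.1, hzC'⟩ ⟨hC, hWC⟩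
      exact hz'.2 (this ▸ hzC')
    · push Not at hex
      obtain ⟨m, hm⟩ := mem_nhds_pt.1 hW
      refine ⟨m, fun C hC hCx z hz hzC => ?_⟩
      obtain ⟨q', hq'⟩ := hex C hC ⟨z, hm hz, hzC⟩
      exact hCx q' hq'
  let D : A → ℕ → List Bool → Bool := fun x n s => decide (∃ q : Q, digits q.1 s.length = s ∧
    ∀ C ∈ 𝒱 n, (∀ q', (.pt x q' : Sp Δ r) ∉ C) → ∀ z ∈ (N x q.1 s.length : Set (Sp Δ r)), z ∉ C)
  have hD : ∀ x n s, ∃ t, s <+: t ∧ D x n t = true := by
    intro x n s
    let q : Q := ⟨fun i => s.getD i false, s.length, fun i hi => List.getD_eq_default _ _ hi⟩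
    have hq : digits q.1 s.length = s := by
      apply List.ext_getElem
      · exact digits_length _ _
      · intro i hi hi'
        have : (digits q.1 s.length)[i] = s.getD i false := by simp [digits, q]
        rw [this, List.getD_eq_getElem _ _ hi']
    obtain ⟨m, hm⟩ := hgood x n q
    refine ⟨digits q.1 (max m s.length), ?_, ?_⟩
    · conv_lhs => rw [← hq]
      exact digits_prefix _ (le_max_right _ _)
    · refine decide_eq_true ⟨q, by rw [digits_length], fun C hC hCx z hz => ?_⟩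
      rw [digits_length] at hz
      exact hm C hC hCx z (N_anti (le_max_left _ _) hz)
  choose ξ hξ using fun x n => h.luzin (D x n) (hD x n)
  choose β hβ using fun x => h.unc (ξ x)
  obtain ⟨x, y, hxy, hx, hy⟩ := h.big β
  -- the isolated point attached to `x` and `y`
  have key : ∀ x', β x' < Δ x y → ov (.iso x y hxy : Sp Δ r) x' → ∀ n, ∀ C ∈ 𝒱 n,
      (.iso x y hxy : Sp Δ r) ∈ C → ∃ q', (.pt x' q' : Sp Δ r) ∈ C := by
    intro x' hx' hov n C hC hzC
    by_contra hcon
    push Not at hcon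
    obtain ⟨k, hk⟩ := hξ x' n (Δ x y) ((hβ x' n).trans hx')
    obtain ⟨q, hq, hq'⟩ := of_decide_eq_true hk
    rw [digits_length] at hq hq'
    exact hq' C hC hcon _ ⟨hov, digits_eq hq.symm⟩ hzC
  obtain ⟨n, C, hC, hzC⟩ := h3 (.iso x y hxy)
  obtain ⟨q1, hq1⟩ := key x hx (Or.inl rfl) n C hC hzC
  obtain ⟨q2, hq2⟩ := key y hy (Or.inr rfl) n C hC hzC
  obtain ⟨_, ⟨w, rfl⟩, hCU⟩ := (h1 n C hC).2
  have e1 : x = w := by
    rcases hCU hq1 with h | ⟨a, b, hab, h⟩
    · exact h
    · cases h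
  have e2 : y = w := by
    rcases hCU hq2 with h | ⟨a, b, hab, h⟩
    · exact h
    · cases h
  exact hxy (e1.trans e2.symm)

end Pool.Agent.LQ
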