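import Pool.Agent.Lib.MP_df1441_gt.Defs

set_option autoImplicit false
set_option linter.unusedSectionVars false

/-!
# Basic facts on the poset
-/

namespace Pool.Agent.LQ

open Cardinal Pool.Agent.KM

variable {A Ω K : Type} [LinearOrder Ω] {Δ : A → A → Ω}

theorem le_def {q p : LPoset A Ω K Δ} : q ≤ p ↔ ∀ B x v, p.f B x = some v → q.f B x = some v :=
  Iff.rfl

theorem Nm.Dec.mono {B : Nm A Ω K} {f g : Nm A Ω K → A → Option (Ω × Bool)}
    (h : ∀ B x v, f B x = some v → g B x = some v) {x : A} {b : Bool} (hd : B.Dec f x b) :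
    B.Dec g x b := by
  cases B with
  | base => exact hd
  | mk l ex nm pt val lab =>
    obtain ⟨k, h1, h2⟩ := hd
    exact ⟨k, h1, fun n hn => h _ _ _ (h2 n hn)⟩

/-- The union of countably many conditions which agree with each other. -/
theorem exists_union {I : Type} [Countable I] (p : I → LPoset A Ω K Δ)
    (hc : ∀ i j B x v w, (p i).f B x = some v → (p j).f B x = some w → v = w)
    (hs : ∀ i j B x y v w, (p i).f B x = some (v, true) → (p j).f B y = some (w, false) →
      Δ x y < v ∨ Δ x y < w) :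
    ∃ q : LPoset A Ω K Δ, (∀ i, q ≤ p i) ∧ ∀ B x v, q.f B x = some v → ∃ i, (p i).f B x = some v := by
  classical
  let f : Nm A Ω K → A → Option (Ω × Bool) := fun B x =>
    if h : ∃ i, (p i).f B x ≠ none then (p h.choose).f B x else none
  have hf : ∀ B x v, f B x = some v ↔ ∃ i, (p i).f B x = some v := by
    intro B x v
    constructor
    · intro h
      by_cases hex : ∃ i, (p i).f B x ≠ none
      · refine ⟨hex.choose, ?_⟩
        simpa [f, hex] using h
      · simp [f, hex] at h
    · rintro ⟨i, hi⟩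
      have hex : ∃ i, (p i).f B x ≠ none := ⟨i, by rw [hi]; simp⟩
      obtain ⟨w, hw⟩ := Option.ne_none_iff_exists'.1 hex.choose_spec
      have : f B x = (p hex.choose).f B x := by simp only [f]; rw [dif_pos hex]
      rw [this, hw, hc _ _ _ _ _ _ hi hw]
  refine ⟨⟨f, ?_, ?_, ?_⟩, fun i B x v hv => (hf B x v).2 ⟨i, hv⟩, fun B x v hv => (hf B x v).1 hv⟩
  · refine (Set.countable_iUnion fun i => (p i).ctb).mono ?_
    rintro ⟨B, x⟩ h
    obtain ⟨v, hv⟩ := Option.ne_none_iff_exists'.1 h
    obtain ⟨i, hi⟩ := (hf B x v).1 hv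
    exact Set.mem_iUnion.2 ⟨i, by show (p i).f B x ≠ none; rw [hi]; simp⟩
  · intro B x v b h
    obtain ⟨i, hi⟩ := (hf _ _ _).1 h
    exact ((p i).dec B x v b hi).mono fun B x v hv => (hf _ _ _).2 ⟨i, hv⟩
  · intro B x y v w h h'
    obtain ⟨i, hi⟩ := (hf _ _ _).1 h
    obtain ⟨j, hj⟩ := (hf _ _ _).1 h'
    exact hs i j B x y v w hi hj

/-- The poset is countably closed. -/
theorem exists_lower (p : ℕ → LPoset A Ω K Δ) (h : ∀ n, p (n + 1) ≤ p n) : ∃ q, ∀ n, q ≤ p n := by
  have hm : ∀ m n, m ≤ n → p n ≤ p m := by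
    intro m n hmn
    induction hmn with
    | refl => exact le_rfl
    | step _ ih => exact (h _).trans ih
  have hm' : ∀ i j, ∃ k, p k ≤ p i ∧ p k ≤ p j := fun i j =>
    ⟨max i j, hm _ _ (le_max_left _ _), hm _ _ (le_max_right _ _)⟩
  obtain ⟨q, hq, -⟩ := exists_union p
    (fun i j B x v w hv hw => by
      obtain ⟨k, h1, h2⟩ := hm' i j
      have := (h1 B x v hv).symm.trans (h2 B x w hw)
      exact Option.some.inj this)
    (fun i j B x y v w hv hw => by
      obtain ⟨k, h1, h2⟩ := hm' i j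
      exact (p k).sep B x y v w (h1 _ _ _ hv) (h2 _ _ _ hw))
  exact ⟨q, hq⟩

/-- The empty condition. -/
def LPoset.empty : LPoset A Ω K Δ where
  f _ _ := none
  ctb := by
    have : {i : Nm A Ω K × A | (none : Option (Ω × Bool)) ≠ none} = ∅ := by ext; simp
    rw [this]; exact Set.countable_empty
  dec _ _ _ _ h := by cases h
  sep _ _ _ _ _ h := by cases h

instance : Nonempty (LPoset A Ω K Δ) := ⟨LPoset.empty⟩

/-- One more point can be added to the domain of a condition. -/
theorem exists_add (hunc : ∀ g : ℕ → Ω, ∃ b, ∀ n, g n < b) (hsymm : ∀ x y, Δ x y = Δ y x)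
    (p : LPoset A Ω K Δ) (B : Nm A Ω K) (x : A) (b : Bool) (hd : B.Dec p.f x b) :
    ∃ q ≤ p, ∃ v b', q.f B x = some (v, b') := by
  classical
  by_cases hx : p.f B x = none
  swap
  · obtain ⟨⟨v, b'⟩, h⟩ := Option.ne_none_iff_exists'.1 hx
    exact ⟨p, le_rfl, v, b', h⟩
  -- a bound for the values of `Δ x y`
  have hex : ∃ v : Ω, ∀ y w, p.f B y = some w → Δ x y < v := by
    have hct : {y : A | p.f B y ≠ none}.Countable :=
      p.ctb.preimage (f := fun y : A => (B, y)) (fun a a' h => (Prod.mk.inj h).2)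
    rcases ({y : A | p.f B y ≠ none}).eq_empty_or_nonempty with he | hne
    · obtain ⟨v, -⟩ := hunc fun _ => Δ x x
      refine ⟨v, fun y w hw => ?_⟩
      have : y ∈ ({y : A | p.f B y ≠ none} : Set A) := by show p.f B y ≠ none; rw [hw]; simp
      rw [he] at this
      exact absurd this (Set.notMem_empty y)
    · obtain ⟨s, hs⟩ := hct.exists_eq_range hne
      obtain ⟨v, hv⟩ := hunc fun n => Δ x (s n)
      refine ⟨v, fun y w hw => ?_⟩
      have : y ∈ ({y : A | p.f B y ≠ none} : Set A) := by show p.f B y ≠ none; rw [hw]; simp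
      rw [hs] at this
      obtain ⟨n, rfl⟩ := this
      exact hv n
  obtain ⟨v, hv⟩ := hex
  let g : Nm A Ω K → A → Option (Ω × Bool) := fun B' y => if B' = B ∧ y = x then some (v, b) else p.f B' y
  have hg1 : g B x = some (v, b) := if_pos ⟨rfl, rfl⟩
  have hg2 : ∀ B' y w, p.f B' y = some w → g B' y = some w := by
    intro B' y w hw
    have : ¬ (B' = B ∧ y = x) := by rintro ⟨rfl, rfl⟩; rw [hx] at hw; cases hw
    show (if B' = B ∧ y = x then some (v, b) else p.f B' y) = some w
    rw [if_neg this, hw]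
  have hg3 : ∀ B' y w, g B' y = some w → (B' = B ∧ y = x ∧ w = (v, b)) ∨ p.f B' y = some w := by
    intro B' y w hw
    by_cases h : B' = B ∧ y = x
    · left
      have hw' : (if B' = B ∧ y = x then some (v, b) else p.f B' y) = some w := hw
      rw [if_pos h] at hw'
      exact ⟨h.1, h.2, (Option.some.inj hw').symm⟩
    · right
      have hw' : (if B' = B ∧ y = x then some (v, b) else p.f B' y) = some w := hw
      rwa [if_neg h] at hw'
  refine ⟨⟨g, ?_, ?_, ?_⟩, hg2, v, b, hg1⟩
  · refine (p.ctb.union (Set.countable_singleton (B, x))).mono ?_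
    rintro ⟨B', y⟩ h
    obtain ⟨w, hw⟩ := Option.ne_none_iff_exists'.1 h
    rcases hg3 _ _ _ hw with ⟨h1, h2, -⟩ | h1
    · right; exact Prod.ext h1 h2
    · left; show p.f B' y ≠ none; rw [h1]; simp
  · intro B' y w b' h
    rcases hg3 _ _ _ h with ⟨rfl, rfl, h3⟩ | h1
    · have : b' = b := (Prod.mk.inj h3).2
      subst this
      exact hd.mono hg2
    · exact (p.dec _ _ _ _ h1).mono hg2
  · intro B' y z w w' h h'
    rcases hg3 _ _ _ h with ⟨rfl, rfl, h3⟩ | h1
    · rcases hg3 _ _ _ h' with ⟨-, -, h6⟩ | h4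
      · have e1 : true = b := (Prod.mk.inj h3).2
        have e2 : false = b := (Prod.mk.inj h6).2
        rw [← e1] at e2; cases e2
      · left
        rw [(Prod.mk.inj h3).1]
        exact hv _ _ h4
    · rcases hg3 _ _ _ h' with ⟨rfl, rfl, h6⟩ | h4
      · right
        rw [(Prod.mk.inj h6).1, hsymm]
        exact hv _ _ h1
      · exact p.sep _ _ _ _ _ h1 h4

/-- The graph of a condition can be enumerated. -/
theorem exists_enum (p : LPoset A Ω K Δ) (x₀ : A) (v₀ : Ω) :
    ∃ (ex : ℕ → Bool) (nm : ℕ → Nm A Ω K) (pt : ℕ → A) (val : ℕ → Ω) (lab : ℕ → Bool),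
      ∀ g : Nm A Ω K → A → Option (Ω × Bool),
        (∀ n, ex n = true → g (nm n) (pt n) = some (val n, lab n)) ↔
          ∀ B x v, p.f B x = some v → g B x = some v := by
  classical
  rcases ({i : Nm A Ω K × A | p.f i.1 i.2 ≠ none}).eq_empty_or_nonempty with he | hne
  · refine ⟨fun _ => false, fun _ => Nm.base, fun _ => x₀, fun _ => v₀, fun _ => false, fun g =>
      ⟨fun _ B x v hv => ?_, fun _ n hn => by cases hn⟩⟩
    have : ((B, x) : Nm A Ω K × A) ∈ ({i : Nm A Ω K × A | p.f i.1 i.2 ≠ none}) := by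
      show p.f B x ≠ none; rw [hv]; simp
    rw [he] at this
    exact absurd this (Set.notMem_empty _)
  · obtain ⟨s, hs⟩ := p.ctb.exists_eq_range hne
    have hs' : ∀ n, p.f (s n).1 (s n).2 ≠ none := fun n => by
      have : s n ∈ ({i : Nm A Ω K × A | p.f i.1 i.2 ≠ none}) := by rw [hs]; exact ⟨n, rfl⟩
      exact this
    choose w hw using fun n => Option.ne_none_iff_exists'.1 (hs' n)
    refine ⟨fun _ => true, fun n => (s n).1, fun n => (s n).2, fun n => (w n).1, fun n => (w n).2,
      fun g => ⟨fun h B x v hv => ?_, fun h n _ => h _ _ _ (hw n)⟩⟩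
    have : ((B, x) : Nm A Ω K × A) ∈ ({i : Nm A Ω K × A | p.f i.1 i.2 ≠ none}) := by
      show p.f B x ≠ none; rw [hv]; simp
    rw [hs] at this
    obtain ⟨n, hn⟩ := this
    have h1 : g (s n).1 (s n).2 = some (w n) := h n rfl
    have h2 := hw n
    rw [hn] at h1 h2
    rw [h1]
    have h3 : some v = some (w n) := hv.symm.trans h2
    rw [h3]

end Pool.Agent.LQ
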