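import Pool.Agent.Lib.MP_df1441_gt.Defs

set_option autoImplicit false
set_option linter.unusedSectionVars false
set_option linter.unusedVariables false

/-!
# The space
-/

namespace Pool.Agent.LQ

open Set

/-- The eventually zero sequences. -/
abbrev Q : Type := {q : ℕ → Bool // ∃ N, ∀ n, N ≤ n → q n = false}

instance : Countable Q := by
  let f : List Bool → ℕ → Bool := fun s n => s.getD n false
  have h : ∀ q : Q, ∃ s, f s = q.1 := by
    rintro ⟨q, N, hN⟩
    refine ⟨digits q N, funext fun n => ?_⟩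
    by_cases hn : n < N
    · have : n < (digits q N).length := by simpa [digits] using hn
      show (digits q N).getD n false = q n
      rw [List.getD_eq_getElem _ _ this]
      simp [digits]
    · have : (digits q N).length ≤ n := by simpa [digits] using not_lt.1 hn
      show (digits q N).getD n false = q n
      rw [List.getD_eq_default _ _ this, hN n (not_lt.1 hn)]
  choose s hs using h
  exact Function.Injective.countable (f := s) fun q q' h => Subtype.ext (by rw [← hs q, ← hs q', h])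

instance : Nonempty Q := ⟨⟨fun _ => false, 0, fun _ _ => rfl⟩⟩

/-- The space: the points `(x, q)`, and for all different `x`, `y` one isolated point. -/
inductive Sp {Ω A : Type} (Δ : A → A → Ω) (r : Ω → ℕ → Bool) : Type
  | pt (x : A) (q : Q) : Sp Δ r
  | iso (x y : A) (h : x ≠ y) : Sp Δ r

variable {Ω A : Type} [LinearOrder Ω] {Δ : A → A → Ω} {r : Ω → ℕ → Bool}

/-- the points of `A` to which a point is attached -/
def ov : Sp Δ r → A → Prop
  | .pt x' _, x => x' = x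
  | .iso y z _, x => y = x ∨ z = x

/-- the location of a point in the Cantor set -/
def loc : Sp Δ r → ℕ → Bool
  | .pt _ q => q.1
  | .iso y z _ => r (Δ y z)

/-- basic neighbourhoods -/
def N (x : A) (q : ℕ → Bool) (n : ℕ) : Set (Sp Δ r) := {z | ov z x ∧ ∀ i < n, loc z i = q i}

instance : TopologicalSpace (Sp Δ r) where
  IsOpen U := ∀ (x : A) (q : Q), (.pt x q : Sp Δ r) ∈ U → ∃ n, N x q.1 n ⊆ U
  isOpen_univ _ _ _ := ⟨0, Set.subset_univ _⟩
  isOpen_inter U V hU hV x q h := by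
    obtain ⟨n, hn⟩ := hU x q h.1
    obtain ⟨m, hm⟩ := hV x q h.2
    refine ⟨max n m, fun z hz => ⟨hn ⟨hz.1, fun i hi => hz.2 i (lt_of_lt_of_le hi (le_max_left _ _))⟩,
      hm ⟨hz.1, fun i hi => hz.2 i (lt_of_lt_of_le hi (le_max_right _ _))⟩⟩⟩
  isOpen_sUnion 𝒰 h𝒰 x q h := by
    obtain ⟨U, hU, hx⟩ := h
    obtain ⟨n, hn⟩ := h𝒰 U hU x q hx
    exact ⟨n, hn.trans (Set.subset_sUnion_of_mem hU)⟩

theorem isOpen_iff {U : Set (Sp Δ r)} :
    IsOpen U ↔ ∀ (x : A) (q : Q), (.pt x q : Sp Δ r) ∈ U → ∃ n, N x q.1 n ⊆ U := Iff.rfl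

theorem N_anti {x : A} {q : ℕ → Bool} {m n : ℕ} (h : m ≤ n) : (N x q n : Set (Sp Δ r)) ⊆ N x q m :=
  fun _ hz => ⟨hz.1, fun i hi => hz.2 i (lt_of_lt_of_le hi h)⟩

theorem mem_N (x : A) (q : Q) (n : ℕ) : (.pt x q : Sp Δ r) ∈ (N x q.1 n : Set (Sp Δ r)) :=
  ⟨rfl, fun _ _ => rfl⟩

theorem N_congr {x : A} {q q' : ℕ → Bool} {n : ℕ} (h : ∀ i < n, q i = q' i) :
    (N x q n : Set (Sp Δ r)) = N x q' n := by
  ext z
  constructor
  · exact fun hz => ⟨hz.1, fun i hi => (hz.2 i hi).trans (h i hi)⟩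
  · exact fun hz => ⟨hz.1, fun i hi => (hz.2 i hi).trans (h i hi).symm⟩

theorem isOpen_N (x : A) (q : ℕ → Bool) (n : ℕ) : IsOpen (N x q n : Set (Sp Δ r)) := by
  rw [isOpen_iff]
  intro x' q' h
  have h1 : x' = x := h.1
  subst h1
  exact ⟨n, (N_congr h.2).subset⟩

theorem isOpen_iso {U : Set (Sp Δ r)} (h : ∀ x q, (.pt x q : Sp Δ r) ∉ U) : IsOpen U := by
  rw [isOpen_iff]
  intro x q hx
  exact absurd hx (h x q)

/-- another point is separated by a basic neighbourhood -/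
theorem exists_notMem (hinf : ∀ ν N, ∃ n, N ≤ n ∧ r ν n = true) (x : A) (q : Q) (z : Sp Δ r)
    (hz : z ≠ .pt x q) : ∃ n, z ∉ (N x q.1 n : Set (Sp Δ r)) := by
  by_contra hcon
  push Not at hcon
  have h1 : ov z x := (hcon 0).1
  have h2 : ∀ i, loc z i = q.1 i := fun i => (hcon (i + 1)).2 i (Nat.lt_succ_self i)
  rcases z with ⟨x', q'⟩ | ⟨y, z, hyz⟩
  · have e1 : x' = x := h1
    have e2 : q' = q := Subtype.ext (funext h2)
    exact hz (by rw [e1, e2])
  · obtain ⟨M, hM⟩ := q.2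
    obtain ⟨n, hn, hn'⟩ := hinf (Δ y z) M
    have : r (Δ y z) n = q.1 n := h2 n
    rw [hn', hM n hn] at this
    cases this

theorem isClosed_N (hinf : ∀ ν N, ∃ n, N ≤ n ∧ r ν n = true) (x : A) (q : ℕ → Bool) (n : ℕ) :
    IsClosed (N x q n : Set (Sp Δ r)) := by
  rw [← isOpen_compl_iff, isOpen_iff]
  intro x' q' h
  by_cases hx : x' = x
  · subst hx
    refine ⟨n, fun z hz hz' => h ⟨rfl, fun i hi => ?_⟩⟩
    show q'.1 i = q i
    rw [← hz.2 i hi, hz'.2 i hi]
  · -- only the points over `x` and `x'` are in both sets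
    have : ∃ m, ∀ z : Sp Δ r, z ∈ (N x' q'.1 m : Set (Sp Δ r)) →
        z ∈ (N x q n : Set (Sp Δ r)) → False := by
      obtain ⟨M, hM⟩ := q'.2
      obtain ⟨n1, h1, h1'⟩ := hinf (Δ x x') M
      obtain ⟨n2, h2, h2'⟩ := hinf (Δ x' x) M
      refine ⟨max n1 n2 + 1, fun z hz hz' => ?_⟩
      rcases z with ⟨y, q''⟩ | ⟨y, z, hyz⟩
      · have e1 : y = x' := hz.1
        have e2 : y = x := hz'.1
        exact hx (e1 ▸ e2)
      · have e1 : y = x' ∨ z = x' := hz.1
        have e2 : y = x ∨ z = x := hz'.1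
        have e3 : (y = x ∧ z = x') ∨ (y = x' ∧ z = x) := by
          rcases e1 with e1 | e1 <;> rcases e2 with e2 | e2
          · exact absurd (e1.symm.trans e2) hx
          · exact Or.inr ⟨e1, e2⟩
          · exact Or.inl ⟨e2, e1⟩
          · exact absurd (e1.symm.trans e2) hx
        rcases e3 with ⟨e3, e4⟩ | ⟨e3, e4⟩
        · have := hz.2 n1 (by omega)
          have h3 : r (Δ y z) n1 = q'.1 n1 := this
          rw [e3, e4, h1', hM n1 h1] at h3
          cases h3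
        · have := hz.2 n2 (by omega)
          have h3 : r (Δ y z) n2 = q'.1 n2 := this
          rw [e3, e4, h2', hM n2 h2] at h3
          cases h3
    obtain ⟨m, hm⟩ := this
    exact ⟨m, fun z hz hz' => hm z hz hz'⟩

theorem mem_nhds_pt {x : A} {q : Q} {U : Set (Sp Δ r)} :
    U ∈ nhds (.pt x q : Sp Δ r) ↔ ∃ n, N x q.1 n ⊆ U := by
  constructor
  · intro h
    obtain ⟨V, hV, hVo, hx⟩ := mem_nhds_iff.1 h
    obtain ⟨n, hn⟩ := isOpen_iff.1 hVo x q hx
    exact ⟨n, hn.trans hV⟩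
  · rintro ⟨n, hn⟩
    exact mem_nhds_iff.2 ⟨_, hn, isOpen_N x q.1 n, mem_N x q n⟩

theorem isOpen_singleton_iso (x y : A) (h : x ≠ y) : IsOpen ({.iso x y h} : Set (Sp Δ r)) :=
  isOpen_iso fun x q h => by cases h

theorem mem_nhds_iso {x y : A} {h : x ≠ y} {U : Set (Sp Δ r)} :
    U ∈ nhds (.iso x y h : Sp Δ r) ↔ (.iso x y h : Sp Δ r) ∈ U := by
  constructor
  · exact mem_of_mem_nhds
  · intro hU
    exact mem_nhds_iff.2 ⟨{.iso x y h}, by simpa using hU, isOpen_singleton_iso x y h, rfl⟩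

theorem firstCountable : FirstCountableTopology (Sp Δ r) := by
  constructor
  rintro (⟨x, q⟩ | ⟨x, y, h⟩)
  · have : (nhds (.pt x q : Sp Δ r)).HasBasis (fun _ : ℕ => True) fun n => N x q.1 n :=
      ⟨fun U => by rw [mem_nhds_pt]; simp⟩
    exact this.isCountablyGenerated
  · have : (nhds (.iso x y h : Sp Δ r)).HasBasis (fun _ : ℕ => True) fun _ => {.iso x y h} :=
      ⟨fun U => by rw [mem_nhds_iso]; simp⟩
    exact this.isCountablyGenerated

theorem t3 (hinf : ∀ ν N, ∃ n, N ≤ n ∧ r ν n = true) : T3Space (Sp Δ r) := by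
  have h1 : T1Space (Sp Δ r) := by
    constructor
    intro z
    rw [← isOpen_compl_iff, isOpen_iff]
    intro x q h
    obtain ⟨n, hn⟩ := exists_notMem hinf x q z fun h' => h h'.symm
    exact ⟨n, fun w hw hw' => hn (by rw [← (show w = z from hw')]; exact hw)⟩
  have h2 : RegularSpace (Sp Δ r) := by
    refine RegularSpace.of_exists_mem_nhds_isClosed_subset ?_
    rintro (⟨x, q⟩ | ⟨x, y, h⟩) s hs
    · obtain ⟨n, hn⟩ := mem_nhds_pt.1 hs
      exact ⟨N x q.1 n, mem_nhds_pt.2 ⟨n, subset_rfl⟩, isClosed_N hinf x q.1 n, hn⟩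
    · exact ⟨{.iso x y h}, mem_nhds_iso.2 rfl, isClosed_singleton, by
        simpa using mem_nhds_iso.1 hs⟩
  infer_instance

theorem metacompact : Metacompact (Sp Δ r) := by
  classical
  intro 𝒰 hU hcov
  have hgood : ∀ (x : A) (q : Q), ∃ n, ∃ U ∈ 𝒰, (N x q.1 n : Set (Sp Δ r)) ⊆ U := by
    intro x q
    have : (.pt x q : Sp Δ r) ∈ ⋃₀ 𝒰 := by rw [hcov]; trivial
    obtain ⟨U, hU', hx⟩ := this
    obtain ⟨n, hn⟩ := isOpen_iff.1 (hU U hU') x q hx
    exact ⟨n, U, hU', hn⟩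
  let m : A → Q → ℕ := fun x q => Nat.find (hgood x q)
  have hm : ∀ x q, ∃ U ∈ 𝒰, (N x q.1 (m x q) : Set (Sp Δ r)) ⊆ U := fun x q =>
    Nat.find_spec (hgood x q)
  have hmle : ∀ x q n, (∃ U ∈ 𝒰, (N x q.1 n : Set (Sp Δ r)) ⊆ U) → m x q ≤ n := fun x q n h =>
    Nat.find_min' (hgood x q) h
  -- two members over the same point of `A` with a common point are equal
  have hle : ∀ (x : A) (q q' : Q) (z : Sp Δ r), z ∈ (N x q.1 (m x q) : Set (Sp Δ r)) →
      z ∈ (N x q'.1 (m x q') : Set (Sp Δ r)) →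
      m x q ≤ m x q' → (N x q.1 (m x q) : Set (Sp Δ r)) = N x q'.1 (m x q') := by
    intro x q q' z h h' hqq
    have h1 : ∀ i < m x q, q.1 i = q'.1 i := fun i hi =>
      (h.2 i hi).symm.trans (h'.2 i (lt_of_lt_of_le hi hqq))
    have h2 : m x q' ≤ m x q := by
      apply hmle
      rw [← N_congr h1]
      exact hm x q
    have h3 : m x q = m x q' := le_antisymm hqq h2
    rw [← h3]
    exact N_congr h1
  have hsub : ∀ (x : A) (z : Sp Δ r),
      {V : Set (Sp Δ r) | ∃ q : Q, V = N x q.1 (m x q) ∧ z ∈ V}.Subsingleton := by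
    rintro x z V ⟨q, rfl, h⟩ V' ⟨q', rfl, h'⟩
    rcases le_total (m x q) (m x q') with h1 | h1
    · exact hle x q q' z h h' h1
    · exact (hle x q' q z h' h h1).symm
  refine ⟨{V | ∃ (x : A) (q : Q), V = N x q.1 (m x q)} ∪
    {V | ∃ (x y : A) (h : x ≠ y), V = {.iso x y h}}, ?_, ?_, ?_⟩
  · rintro V (⟨x, q, rfl⟩ | ⟨x, y, h, rfl⟩)
    · exact ⟨isOpen_N _ _ _, hm x q⟩
    · have : (.iso x y h : Sp Δ r) ∈ ⋃₀ 𝒰 := by rw [hcov]; trivial
      obtain ⟨U, hU', hx⟩ := this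
      exact ⟨isOpen_singleton_iso x y h, U, hU', by simpa using hx⟩
  · rw [Set.eq_univ_iff_forall]
    rintro (⟨x, q⟩ | ⟨x, y, h⟩)
    · exact ⟨_, Or.inl ⟨x, q, rfl⟩, mem_N x q _⟩
    · exact ⟨_, Or.inr ⟨x, y, h, rfl⟩, rfl⟩
  · rintro (⟨x, q⟩ | ⟨x, y, h⟩)
    · refine (hsub x (.pt x q)).finite.subset ?_
      rintro V ⟨⟨x', q', rfl⟩ | ⟨x', y', h', rfl⟩, hx⟩
      · have : x = x' := hx.1
        subst this
        exact ⟨q', rfl, hx⟩
      · cases hx
    · refine (((hsub x (.iso x y h)).finite.union (hsub y (.iso x y h)).finite).union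
        (Set.finite_singleton {.iso x y h})).subset ?_
      rintro V ⟨⟨x', q', rfl⟩ | ⟨x', y', h', rfl⟩, hx⟩
      · have : x = x' ∨ y = x' := hx.1
        rcases this with rfl | rfl
        · exact Or.inl (Or.inl ⟨q', rfl, hx⟩)
        · exact Or.inl (Or.inr ⟨q', rfl, hx⟩)
      · right
        have : (.iso x y h : Sp Δ r) = .iso x' y' h' := hx
        rw [this]; rfl

end Pool.Agent.LQ
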