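import Pool.Agent.Lib.MP_df1441_gt.NotSub

set_option autoImplicit false
set_option linter.unusedSectionVars false
set_option linter.unusedVariables false

/-!
# The space is subnormal
-/

namespace Pool.Agent.LQ

open Set

variable {Ω A : Type} [LinearOrder Ω] {Δ : A → A → Ω} {r : Ω → ℕ → Bool}

/-- an open set of 0-1 sequences -/
def Op (O : (ℕ → Bool) → Prop) : Prop := ∀ y, O y → ∃ n, ∀ y', (∀ j < n, y' j = y j) → O y'

/-- Separated sets of eventually zero sequences lie in disjoint open sets. -/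
theorem exists_sep (P₀ P₁ : Q → Prop) (m : Q → ℕ)
    (h10 : ∀ q q', P₁ q → P₀ q' → ¬ ∀ j < m q, q'.1 j = q.1 j)
    (h01 : ∀ q q', P₀ q → P₁ q' → ¬ ∀ j < m q, q'.1 j = q.1 j) :
    ∃ O₀ O₁ : (ℕ → Bool) → Prop, Op O₀ ∧ Op O₁ ∧ (∀ y, O₀ y → O₁ y → False) ∧
      (∀ q : Q, P₀ q → O₀ q.1) ∧ ∀ q : Q, P₁ q → O₁ q.1 := by
  classical
  obtain ⟨e, he⟩ := exists_surjective_nat Q
  have hop : ∀ P P' : Q → Prop, Op fun y => ∃ k, P (e k) ∧ (∀ j < m (e k), y j = (e k).1 j) ∧
      ∀ l ≤ k, P' (e l) → ¬ ∀ j < m (e l), y j = (e l).1 j := by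
    rintro P P' y ⟨k, h1, h2, h3⟩
    refine ⟨∑ l ∈ Finset.range (k + 1), m (e l), fun y' hy' => ?_⟩
    have hle : ∀ l ≤ k, m (e l) ≤ ∑ l ∈ Finset.range (k + 1), m (e l) := fun l hl =>
      Finset.single_le_sum (f := fun l => m (e l)) (fun _ _ => Nat.zero_le _)
        (Finset.mem_range.2 (Nat.lt_succ_of_le hl))
    refine ⟨k, h1, fun j hj => ?_, fun l hl hP h => h3 l hl hP fun j hj => ?_⟩
    · rw [hy' j (lt_of_lt_of_le hj (hle k le_rfl)), h2 j hj]
    · rw [← hy' j (lt_of_lt_of_le hj (hle l hl)), h j hj]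
  refine ⟨_, _, hop P₀ P₁, hop P₁ P₀, ?_, ?_, ?_⟩
  · rintro y ⟨k, h1, h2, h3⟩ ⟨k', h1', h2', h3'⟩
    rcases le_total k k' with h | h
    · exact h3' k h h1 h2
    · exact h3 k' h h1' h2'
  · intro q hq
    obtain ⟨k, rfl⟩ := he q
    exact ⟨k, hq, fun _ _ => rfl, fun l _ hP => h10 _ _ hP hq⟩
  · intro q hq
    obtain ⟨k, rfl⟩ := he q
    exact ⟨k, hq, fun _ _ => rfl, fun l _ hP => h01 _ _ hP hq⟩

/-- for an isolated point: `ξ ≤ Δ x y` -/
def far : Sp Δ r → Ω → Prop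
  | .pt _ _, _ => True
  | .iso y z _, ξ => ξ ≤ Δ y z

/-- for an isolated point: if `Δ x y` is one of the first `n` members of the sequence then
`ξ ≤ Δ x y` -/
def farn (n : ℕ) (e : ℕ → Ω) : Sp Δ r → Ω → Prop
  | .pt _ _, _ => True
  | .iso y z _, ξ => ∀ j < n, e j = Δ y z → ξ ≤ Δ y z

theorem farn_anti {m n : ℕ} (h : m ≤ n) {e : ℕ → Ω} {z : Sp Δ r} {ξ : Ω} (hz : farn n e z ξ) :
    farn m e z ξ := by
  rcases z with ⟨x, q⟩ | ⟨x, y, hxy⟩
  · trivial
  · exact fun j hj => hz j (lt_of_lt_of_le hj h)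

theorem subnormal (h : IsLuzinQ Ω A Δ r) : Subnormal (Sp Δ r) := by
  classical
  intro S F hS hF hSF
  -- separation in each fiber
  have h1 : ∀ x : A, ∃ O₀ O₁ : (ℕ → Bool) → Prop, Op O₀ ∧ Op O₁ ∧ (∀ y, O₀ y → O₁ y → False) ∧
      (∀ q : Q, (.pt x q : Sp Δ r) ∈ S → O₀ q.1) ∧ ∀ q : Q, (.pt x q : Sp Δ r) ∈ F → O₁ q.1 := by
    intro x
    have ha : ∀ q : Q, ∃ m, ((.pt x q : Sp Δ r) ∉ S → ∀ z ∈ (N x q.1 m : Set (Sp Δ r)), z ∉ S) ∧
        ((.pt x q : Sp Δ r) ∉ F → ∀ z ∈ (N x q.1 m : Set (Sp Δ r)), z ∉ F) := by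
      intro q
      have hb : ∀ H : Set (Sp Δ r), IsClosed H → ∃ m, ((.pt x q : Sp Δ r) ∉ H →
          ∀ z ∈ (N x q.1 m : Set (Sp Δ r)), z ∉ H) := by
        intro H hH
        by_cases hx : (.pt x q : Sp Δ r) ∈ H
        · exact ⟨0, fun h => absurd hx h⟩
        · obtain ⟨m, hm⟩ := isOpen_iff.1 hH.isOpen_compl x q hx
          exact ⟨m, fun _ z hz => hm hz⟩
      obtain ⟨m1, hm1⟩ := hb S hS
      obtain ⟨m2, hm2⟩ := hb F hF
      exact ⟨max m1 m2, fun hq z hz => hm1 hq z (N_anti (le_max_left _ _) hz),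
        fun hq z hz => hm2 hq z (N_anti (le_max_right _ _) hz)⟩
    choose m hm1 hm2 using ha
    refine exists_sep (fun q => (.pt x q : Sp Δ r) ∈ S) (fun q => (.pt x q : Sp Δ r) ∈ F) m ?_ ?_
    · intro q q' hq hq' hj
      exact hm1 q (fun h' => Set.disjoint_left.1 hSF h' hq) (.pt x q') ⟨rfl, hj⟩ hq'
    · intro q q' hq hq' hj
      exact hm2 q (fun h' => Set.disjoint_left.1 hSF hq h') (.pt x q') ⟨rfl, hj⟩ hq'
  choose O₀ O₁ hO₀ hO₁ hdis hSO hFO using h1
  -- a function which controls the differences between the fibers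
  let O : Bool → A → (ℕ → Bool) → Prop := fun i x => cond i (O₁ x) (O₀ x)
  have hO : ∀ i x, Op (O i x) := fun i x => by cases i; exacts [hO₀ x, hO₁ x]
  let B : List Bool × Bool → A → Bool := fun s x =>
    decide (∀ y, digits y s.1.length = s.1 → O s.2 x y)
  choose f hf using fun s => h.unif (B s)
  obtain ⟨e, he⟩ := exists_surjective_nat (List Bool × Bool)
  choose g hg using fun x => h.unc fun n => f (e n) x
  have hg' : ∀ s x, f s x < g x := fun s x => by
    obtain ⟨n, rfl⟩ := he s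
    exact hg x n
  have htr : ∀ x y, g x ≤ Δ x y → g y ≤ Δ x y → ∀ i z, O i x z → O i y z := by
    intro x y hx hy i z hz
    obtain ⟨n, hn⟩ := hO i x z hz
    have hB : B (digits z n, i) x = true := by
      refine decide_eq_true fun y' hy' => hn y' ?_
      have h1 : digits y' (digits z n).length = digits z n := hy'
      rw [digits_length] at h1
      exact digits_eq h1
    by_cases hB' : B (digits z n, i) y = true
    · refine of_decide_eq_true hB' z ?_
      show digits z (digits z n).length = digits z n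
      rw [digits_length]
    · exfalso
      have hB'' : B (digits z n, i) y = false := by simpa using hB'
      rcases hf (digits z n, i) x y hB hB'' with h1 | h1
      · exact absurd (hx.trans_lt (h1.trans (hg' _ x))) (lt_irrefl _)
      · exact absurd (hy.trans_lt (h1.trans (hg' _ y))) (lt_irrefl _)
  -- the `G_δ` sets
  choose en hen using fun x => h.seg (g x)
  let E : Bool → Set (Sp Δ r) := fun i => {z | ∃ x, ov z x ∧ far z (g x) ∧ O i x (loc z)}
  let En : Bool → ℕ → Set (Sp Δ r) := fun i n =>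
    {z | ∃ x, ov z x ∧ farn n (en x) z (g x) ∧ O i x (loc z)}
  have hEn : ∀ i n, IsOpen (En i n) := by
    intro i n
    rw [isOpen_iff]
    rintro x q ⟨x', hx', -, hz⟩
    have : x = x' := hx'
    subst this
    obtain ⟨n₀, hn₀⟩ := hO i x _ hz
    obtain ⟨M, hM⟩ := q.2
    choose k hk hk' using fun j => h.inf (en x j) M
    refine ⟨n₀ + ∑ j ∈ Finset.range n, (k j + 1), fun z hzN => ⟨x, hzN.1, ?_, ?_⟩⟩
    · rcases z with ⟨x', q'⟩ | ⟨y, z, hyz⟩
      · trivial
      · intro j hj hej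
        exfalso
        have hle : k j + 1 ≤ ∑ j ∈ Finset.range n, (k j + 1) :=
          Finset.single_le_sum (f := fun j => k j + 1) (fun _ _ => Nat.zero_le _)
            (Finset.mem_range.2 hj)
        have h2 : r (Δ y z) (k j) = q.1 (k j) := hzN.2 (k j) (by omega)
        rw [← hej, hk' j, hM _ (hk j)] at h2
        cases h2
    · exact hn₀ _ fun j hj => hzN.2 j (by omega)
  have hEeq : ∀ i, E i = ⋂ n, En i n := by
    intro i
    ext z
    constructor
    · rintro ⟨x, hx, hfar, hz⟩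
      refine Set.mem_iInter.2 fun n => ⟨x, hx, ?_, hz⟩
      rcases z with ⟨x', q'⟩ | ⟨y, z, hyz⟩
      · trivial
      · exact fun _ _ _ => hfar
    · intro hz
      have hz' := Set.mem_iInter.1 hz
      rcases z with ⟨x', q'⟩ | ⟨y, z, hyz⟩
      · obtain ⟨x, hx, -, hO'⟩ := hz' 0
        exact ⟨x, hx, trivial, hO'⟩
      · have hlim : ∀ x, (∀ n, ov (.iso y z hyz : Sp Δ r) x ∧
            farn n (en x) (.iso y z hyz : Sp Δ r) (g x) ∧ O i x (loc (.iso y z hyz : Sp Δ r))) →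
            (.iso y z hyz : Sp Δ r) ∈ E i := by
          intro x hx
          refine ⟨x, (hx 0).1, ?_, (hx 0).2.2⟩
          by_contra hcon
          have hlt : Δ y z < g x := not_le.1 hcon
          obtain ⟨j, hj⟩ := hen x _ hlt
          exact hcon ((hx (j + 1)).2.1 j (Nat.lt_succ_self j) hj)
        by_cases hy : ∀ n, ov (.iso y z hyz : Sp Δ r) y ∧
            farn n (en y) (.iso y z hyz : Sp Δ r) (g y) ∧ O i y (loc (.iso y z hyz : Sp Δ r))
        · exact hlim y hy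
        · refine hlim z fun n => ?_
          obtain ⟨n', hn'⟩ := not_forall.1 hy
          obtain ⟨x, hx, hfar, hO'⟩ := hz' (max n n')
          have hx' : y = x ∨ z = x := hx
          rcases hx' with rfl | rfl
          · exact absurd ⟨hx, farn_anti (le_max_right _ _) hfar, hO'⟩ hn'
          · exact ⟨hx, farn_anti (le_max_left _ _) hfar, hO'⟩
  have hEG : ∀ i, IsGδ (E i) := by
    intro i
    rw [hEeq i]
    exact IsGδ.iInter_of_isOpen (hEn i)
  have hEd : ∀ z, z ∈ E false → z ∈ E true → False := by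
    rintro z ⟨x, hx, hfx, hOx⟩ ⟨x', hx', hfx', hOx'⟩
    by_cases hxx : x = x'
    · subst hxx
      exact hdis x _ hOx hOx'
    · rcases z with ⟨y, q⟩ | ⟨y, z, hyz⟩
      · have e1 : y = x := hx
        have e2 : y = x' := hx'
        exact hxx (e1.symm.trans e2)
      · have e1 : y = x ∨ z = x := hx
        have e2 : y = x' ∨ z = x' := hx'
        have f1 : g x ≤ Δ y z := hfx
        have f2 : g x' ≤ Δ y z := hfx'
        have e3 : (y = x ∧ z = x') ∨ (y = x' ∧ z = x) := by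
          rcases e1 with e1 | e1 <;> rcases e2 with e2 | e2
          · exact absurd (e1.symm.trans e2) hxx
          · exact Or.inl ⟨e1, e2⟩
          · exact Or.inr ⟨e2, e1⟩
          · exact absurd (e1.symm.trans e2) hxx
        rcases e3 with ⟨rfl, rfl⟩ | ⟨rfl, rfl⟩
        · exact hdis _ _ (htr _ _ f1 f2 false _ hOx) hOx'
        · rw [h.symm] at f1 f2
          exact hdis _ _ (htr _ _ f1 f2 false _ hOx) hOx'
  let I : Set (Sp Δ r) := {z | ∀ x q, z ≠ .pt x q}
  have hI : ∀ H : Set (Sp Δ r), IsGδ (H ∩ I) := fun H =>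
    (isOpen_iso fun x q h => h.2 x q rfl).isGδ
  refine ⟨(E false ∩ Fᶜ) ∪ (S ∩ I), (E true ∩ Sᶜ) ∪ (F ∩ I),
    ((hEG _).inter hF.isOpen_compl.isGδ).union (hI S),
    ((hEG _).inter hS.isOpen_compl.isGδ).union (hI F), ?_, ?_, ?_⟩
  · rintro (⟨x, q⟩ | ⟨x, y, hxy⟩) hz
    · exact Or.inl ⟨⟨x, rfl, trivial, hSO x q hz⟩, Set.disjoint_left.1 hSF hz⟩
    · exact Or.inr ⟨hz, fun x' q' h => by cases h⟩
  · rintro (⟨x, q⟩ | ⟨x, y, hxy⟩) hz
    · exact Or.inl ⟨⟨x, rfl, trivial, hFO x q hz⟩, fun h => Set.disjoint_left.1 hSF h hz⟩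
    · exact Or.inr ⟨hz, fun x' q' h => by cases h⟩
  · rw [Set.disjoint_left]
    rintro z (⟨h1, h2⟩ | ⟨h1, h2⟩) (⟨h3, h4⟩ | ⟨h3, h4⟩)
    · exact hEd z h1 h3
    · exact h2 h3
    · exact h4 h1
    · exact Set.disjoint_left.1 hSF h1 h3

end Pool.Agent.LQ
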